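import Pool.Agent.Lib.MP_e13bdd_an.FM.Num

/-! The dyadic odometer. -/

namespace Pool.Agent.Lib.MP_e13bdd_an.FM

open MeasureTheory Filter

theorem jj_lt (k : ℕ) (z : ℤ_[2]) : jj k z < N k := ZMod.val_lt _

theorem jj_mod (k : ℕ) (z : ℤ_[2]) : jj (k + 1) z % N k = jj k z := by
  have hle : ex k ≤ ex (k + 1) := ex_le k
  have h := congrArg (fun f : ℤ_[2] →+* ZMod (2 ^ ex k) => f z)
    (PadicInt.zmod_cast_comp_toZModPow (p := 2) (ex k) (ex (k + 1)) hle)
  simp only [RingHom.comp_apply, ZMod.castHom_apply] at h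
  unfold jj pk N
  rw [← h, ZMod.cast_eq_val, ZMod.val_natCast]

theorem jj_succ (k : ℕ) (z : ℤ_[2]) (j : ℕ) (h1 : 1 ≤ j) (hj : j < N k) :
    j = jj k (1 + z) ↔ j - 1 = jj k z := by
  have hN : 1 < 2 ^ ex k := by
    have := N_ge k
    unfold N at this
    omega
  have : Fact (1 < 2 ^ ex k) := ⟨hN⟩
  have hz := jj_lt k z
  have e : jj k (1 + z) = (1 + jj k z) % N k := by
    unfold jj N
    rw [map_add, map_one, ZMod.val_add, ZMod.val_one]
  rw [e]
  rcases Nat.lt_or_ge (1 + jj k z) (N k) with h | h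
  · rw [Nat.mod_eq_of_lt h]
    omega
  · have h2 : 1 + jj k z = N k := by omega
    rw [h2, Nat.mod_self]
    omega

theorem jj_locConst (k : ℕ) : IsLocallyConstant (jj k) := (pk_locConst (ex k)).comp ZMod.val

theorem meas_fiber (K J : ℕ) (hJ : J < N K) :
    PP {z | jj K z = J} = ENNReal.ofReal (1 / (N K : ℝ)) := by
  have e : {z | jj K z = J} = pk (ex K) ⁻¹' {(J : ZMod (2 ^ ex K))} := by
    ext z
    simp only [Set.mem_ofPred_eq, Set.mem_preimage, Set.mem_singleton_iff, jj]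
    constructor
    · intro h
      rw [← h, ZMod.natCast_zmod_val]
    · intro h
      rw [h, ZMod.val_natCast]
      exact Nat.mod_eq_of_lt hJ
  rw [e, fiber_eq, fiber_zero]
  unfold N
  push_cast
  rw [one_div, ← inv_pow, ENNReal.ofReal_pow (by norm_num), ENNReal.ofReal_inv_of_pos (by norm_num)]
  simp

theorem meas_bad (m : ℕ) : PP {z | ¬ Gd m z} ≤ ENNReal.ofReal (6 / (rr m : ℝ)) := by
  have hb := N_big m
  have hp : (0 : ℝ) < N m := by
    have := N_ge m
    exact_mod_cast (by omega : 0 < N m)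
  have hr : (0 : ℝ) < rr m := by
    have := rr_ge m
    exact_mod_cast (by omega : 0 < rr m)
  set S : Finset ℕ := Finset.range (5 * N m) ∪ Finset.Ico (N (m + 1) - N m) (N (m + 1)) with hS
  have hsub : {z | ¬ Gd m z} ⊆ ⋃ J ∈ S, {z | jj (m + 1) z = J} := by
    intro z hz
    have h1 := jj_lt (m + 1) z
    simp only [Set.mem_ofPred_eq, Gd, not_and, not_lt] at hz
    simp only [Set.mem_iUnion, Set.mem_ofPred_eq, exists_prop]
    refine ⟨_, ?_, rfl⟩
    simp only [hS, Finset.mem_union, Finset.mem_range, Finset.mem_Ico]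
    by_cases h5 : 5 * N m ≤ jj (m + 1) z
    · have := hz h5
      omega
    · omega
  have hlt : ∀ J ∈ S, J < N (m + 1) := by
    intro J hJ
    simp only [hS, Finset.mem_union, Finset.mem_range, Finset.mem_Ico] at hJ
    omega
  have hcard : S.card ≤ 6 * N m := by
    refine (Finset.card_union_le _ _).trans ?_
    rw [Finset.card_range, Nat.card_Ico]
    omega
  refine (measure_mono hsub).trans ((measure_biUnion_finset_le _ _).trans ?_)
  rw [Finset.sum_congr rfl fun J hJ => meas_fiber (m + 1) J (hlt J hJ), Finset.sum_const,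
    nsmul_eq_mul, ← ENNReal.ofReal_natCast, ← ENNReal.ofReal_mul (Nat.cast_nonneg _)]
  refine ENNReal.ofReal_le_ofReal ?_
  have hc : (S.card : ℝ) ≤ 6 * N m := by exact_mod_cast hcard
  rw [N_succ]
  push_cast
  calc (S.card : ℝ) * (1 / ((N m : ℝ) * rr m)) ≤ 6 * N m * (1 / ((N m : ℝ) * rr m)) := by gcongr
    _ = 6 / (rr m : ℝ) := by field_simp

lemma Base_rr (K n : ℕ) : 6 / (rr (K + n) : ℝ) ≤ 6 / 1024 * (1 / 2) ^ n := by
  have h1 : 1024 * 2 ^ n ≤ rr (K + n) := by
    unfold rr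
    calc 1024 * 2 ^ n ≤ 4 ^ 5 * 4 ^ n := by
          gcongr <;> norm_num
      _ = 4 ^ (n + 5) := by ring
      _ ≤ 4 ^ (K + n + 5) := Nat.pow_le_pow_right (by norm_num) (by omega)
  have h2 : (1024 : ℝ) * 2 ^ n ≤ rr (K + n) := by exact_mod_cast h1
  calc 6 / (rr (K + n) : ℝ) ≤ 6 / (1024 * 2 ^ n) := by gcongr
    _ = _ := by
      rw [one_div, inv_pow]
      field_simp

theorem ae_gd : ∀ᵐ z ∂PP, ∃ K, ∀ m, K ≤ m → Gd m z := by
  have h : (∑' n, PP {z | ¬ Gd n z}) ≠ ⊤ := by
    have h1 : ∀ n, PP {z | ¬ Gd n z} ≤ ENNReal.ofReal (6 / 1024 * (1 / 2) ^ n) := fun n =>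
      (meas_bad n).trans (ENNReal.ofReal_le_ofReal (by simpa using Base_rr 0 n))
    refine ne_top_of_le_ne_top ?_ (ENNReal.tsum_le_tsum h1)
    rw [← ENNReal.ofReal_tsum_of_nonneg (fun n => by positivity)
      (summable_geometric_two.mul_left _)]
    exact ENNReal.ofReal_ne_top
  filter_upwards [ae_eventually_notMem h] with z hz
  obtain ⟨K, hK⟩ := eventually_atTop.1 hz
  exact ⟨K, fun m hm => by simpa using hK m hm⟩

theorem lint_jj (n : ℕ) (f : ℕ → ℝ) (hf : ∀ j, 0 ≤ f j) :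
    ∫⁻ z, ENNReal.ofReal (f (jj n z)) ∂PP =
      ENNReal.ofReal ((∑ j ∈ Finset.range (N n), f j) / N n) := by
  have hmeas : ∀ j, MeasurableSet {z | jj n z = j} := fun j =>
    ((jj_locConst n).isOpen_fiber j).measurableSet
  have e : (fun z => ENNReal.ofReal (f (jj n z))) = fun z => ∑ j ∈ Finset.range (N n),
      Set.indicator {z | jj n z = j} (fun _ => ENNReal.ofReal (f j)) z := by
    funext z
    rw [Finset.sum_eq_single (jj n z)]
    · exact (Set.indicator_of_mem (s := {w | jj n w = jj n z}) (a := z) rfl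
        (fun _ => ENNReal.ofReal (f (jj n z)))).symm
    · intro j _ hj
      exact Set.indicator_of_notMem (s := {w | jj n w = j}) (fun h => hj (Eq.symm h)) _
    · intro h
      exact absurd (Finset.mem_range.2 (jj_lt n z)) h
  rw [e, lintegral_finsetSum _ fun j _ => measurable_const.indicator (hmeas j), Finset.sum_div,
    ENNReal.ofReal_sum_of_nonneg fun j _ => div_nonneg (hf j) (Nat.cast_nonneg _)]
  refine Finset.sum_congr rfl fun j hj => ?_
  rw [lintegral_indicator_const (hmeas j), meas_fiber n j (Finset.mem_range.1 hj),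
    ← ENNReal.ofReal_mul (hf j), mul_one_div]

end Pool.Agent.Lib.MP_e13bdd_an.FM
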