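import Pool.Agent.Lib.MP_e13bdd_an.FM.Base

/-! Conditional counts in the dyadic odometer. -/

namespace Pool.Agent.Lib.MP_e13bdd_an.FM

open MeasureTheory Filter

lemma Cond_dvd {K m : ℕ} (h : K ≤ m) : N K ∣ N m := by
  induction m, h using Nat.le_induction with
  | base => exact dvd_rfl
  | succ n _ ih => exact ih.trans (N_dvd n)

lemma Cond_mod {K m : ℕ} (h : K ≤ m) (z : ℤ_[2]) : jj m z % N K = jj K z := by
  induction m, h using Nat.le_induction with
  | base => exact Nat.mod_eq_of_lt (jj_lt K z)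
  | succ n hn ih => rw [← ih, ← jj_mod n z, Nat.mod_mod_of_dvd _ (Cond_dvd hn)]

lemma Cond_fiber (K J : ℕ) : PP {z | jj K z = J} ≤ ENNReal.ofReal (1 / (N K : ℝ)) := by
  rcases Nat.lt_or_ge J (N K) with h | h
  · exact (meas_fiber K J h).le
  · have e : {z | jj K z = J} = ∅ := by
      ext z
      have := jj_lt K z
      simp only [Set.mem_ofPred_eq, Set.mem_empty_iff_false, iff_false]
      omega
    rw [e, measure_empty]
    exact zero_le

theorem meas_bad_cond (K J m : ℕ) (hm : K ≤ m) :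
    PP {z | jj K z = J ∧ ¬ Gd m z} ≤ ENNReal.ofReal (1 / (N K : ℝ) * (6 / (rr m : ℝ))) := by
  obtain ⟨t, ht⟩ := Cond_dvd hm
  have hK : 0 < N K := by
    have := N_ge K
    omega
  have ht0 : 0 < t := by
    have := N_ge m
    rcases Nat.eq_zero_or_pos t with h | h
    · rw [h] at ht
      omega
    · exact h
  have hr := rr_ge m
  have hN : N (m + 1) = N K * (t * rr m) := by rw [N_succ, ht, mul_assoc]
  set S : Finset ℕ := Finset.range (5 * t) ∪ Finset.Ico (t * rr m - t) (t * rr m) with hS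
  have hsub : {z | jj K z = J ∧ ¬ Gd m z} ⊆ ⋃ q ∈ S, {z | jj (m + 1) z = J + N K * q} := by
    rintro z ⟨hJ, hz⟩
    have h1 := jj_lt (m + 1) z
    have h2 := Cond_mod (hm.trans (Nat.le_succ m)) z
    have h3 := Nat.mod_add_div (jj (m + 1) z) (N K)
    have h4 := Nat.mod_lt (jj (m + 1) z) hK
    simp only [Gd, not_and, not_lt] at hz
    simp only [Set.mem_iUnion, Set.mem_ofPred_eq, exists_prop]
    refine ⟨jj (m + 1) z / N K, ?_, by rw [← hJ, ← h2]; exact h3.symm⟩
    simp only [hS, Finset.mem_union, Finset.mem_range, Finset.mem_Ico]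
    by_cases h5 : 5 * N m ≤ jj (m + 1) z
    · have h6 := hz h5
      right
      refine ⟨?_, Nat.div_lt_of_lt_mul (hN ▸ h1)⟩
      rw [Nat.le_div_iff_mul_le hK, Nat.sub_mul, mul_comm (t * rr m), mul_comm t (N K), ← hN, ← ht]
      omega
    · left
      refine Nat.div_lt_of_lt_mul ?_
      rw [mul_left_comm, ← ht]
      omega
  have hcard : S.card ≤ 6 * t := by
    refine (Finset.card_union_le _ _).trans ?_
    rw [Finset.card_range, Nat.card_Ico]
    omega
  refine (measure_mono hsub).trans ((measure_biUnion_finset_le _ _).trans ?_)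
  refine (Finset.sum_le_sum fun q _ => Cond_fiber (m + 1) (J + N K * q)).trans ?_
  rw [Finset.sum_const, nsmul_eq_mul, ← ENNReal.ofReal_natCast,
    ← ENNReal.ofReal_mul (Nat.cast_nonneg _)]
  refine ENNReal.ofReal_le_ofReal ?_
  have hc : (S.card : ℝ) ≤ 6 * t := by exact_mod_cast hcard
  have p1 : (0 : ℝ) < N K := by exact_mod_cast hK
  have p2 : (0 : ℝ) < t := by exact_mod_cast ht0
  have p3 : (0 : ℝ) < rr m := by exact_mod_cast (by omega : 0 < rr m)
  rw [hN]
  push_cast
  calc (S.card : ℝ) * (1 / ((N K : ℝ) * (t * rr m))) ≤ 6 * t * (1 / ((N K : ℝ) * (t * rr m))) := by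
        gcongr
    _ = _ := by field_simp

theorem pos_E (K J : ℕ) (hJ : J < N K) : PP {z | jj K z = J ∧ ∀ m, K ≤ m → Gd m z} ≠ 0 := by
  intro h0
  have hN : (512 : ℝ) ≤ N K := by exact_mod_cast N_ge K
  have hsub : {z | jj K z = J} ⊆
      {z | jj K z = J ∧ ∀ m, K ≤ m → Gd m z} ∪ ⋃ n, {z | jj K z = J ∧ ¬ Gd (K + n) z} := by
    intro z hz
    by_cases h : ∀ m, K ≤ m → Gd m z
    · exact Or.inl ⟨hz, h⟩
    · right
      push Not at h
      obtain ⟨m, hm, hg⟩ := h
      obtain ⟨n, rfl⟩ := Nat.exists_eq_add_of_le hm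
      exact Set.mem_iUnion.2 ⟨n, hz, hg⟩
  have h1 := (measure_mono (μ := PP) hsub).trans (measure_union_le _ _)
  rw [h0, zero_add, meas_fiber K J hJ] at h1
  have h3 : ∀ n, PP {z | jj K z = J ∧ ¬ Gd (K + n) z} ≤
      ENNReal.ofReal (1 / (N K : ℝ) * (6 / 1024) * (1 / 2) ^ n) := by
    intro n
    refine (meas_bad_cond K J (K + n) (Nat.le_add_right _ _)).trans (ENNReal.ofReal_le_ofReal ?_)
    rw [mul_assoc]
    exact mul_le_mul_of_nonneg_left (Base_rr K n) (by positivity)
  have h2 := h1.trans ((measure_iUnion_le _).trans (ENNReal.tsum_le_tsum h3))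
  rw [← ENNReal.ofReal_tsum_of_nonneg (fun n => by positivity)
    (summable_geometric_two.mul_left _), tsum_mul_left, tsum_geometric_two,
    ENNReal.ofReal_le_ofReal_iff (by positivity)] at h2
  have h4 : (0 : ℝ) < 1 / (N K : ℝ) := by positivity
  linarith

end Pool.Agent.Lib.MP_e13bdd_an.FM
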