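import Pool.Agent.Lib.MP_e13bdd_an.FM.RS

/-! A rank one construction with signed linear stacking: definitions. -/

namespace Pool.Agent.Lib.MP_e13bdd_an.FM

open Filter

/-- half exponent of the height of level k -/
def hx : ℕ → ℕ
  | 0 => 5
  | k + 1 => hx k + (k + 5)

/-- exponent of the height of level k -/
def ex (k : ℕ) : ℕ := 2 * hx k

/-- height of level k -/
def N (k : ℕ) : ℕ := 2 ^ ex k

/-- number of blocks of level k + 1 -/
def rr (k : ℕ) : ℕ := 4 ^ (k + 5)

/-- exponent of the heavy weight -/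
def hm (k : ℕ) : ℕ := hx k + 2 * k

/-- the heavy weight -/
noncomputable def M (k : ℕ) : ℝ := 2 ^ hm k

/-- truncated distance up to the next heavy point -/
def dd : ℕ → ℕ → ℕ
  | 0, _ => N 0
  | k + 1, j =>
    if (N k ≤ j ∧ j < 2 * N k) ∨ j + 1 = 4 * N k then N k
    else if 3 * N k ≤ j ∧ j < 4 * N k then hm (k + 1) else N k - 1 - j % N k

/-- weights -/
noncomputable def wt (k j : ℕ) : ℝ := max ((1 / 2) ^ k) (M k * (1 / 2) ^ dd k j)

/-- point mass -/
def dl (j : ℕ) : ℕ → ℂ := fun i => if i = j then 1 else 0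

/-- copy of a level m vector in the light block of level m + 1 -/
def up (m : ℕ) (v : ℕ → ℂ) : ℕ → ℂ := fun j => if N m ≤ j ∧ j < 2 * N m then v (j - N m) else 0

/-- iterated copy: a vector of level l seen at level l + n -/
def lift (l : ℕ) (u : ℕ → ℂ) : ℕ → ℕ → ℂ
  | 0 => u
  | n + 1 => up (l + n) (lift l u n)

/-- dense sequence of patterns -/
noncomputable def qq (n : ℕ) : ℕ → ℂ := TopologicalSpace.denseSeq (ℕ → ℂ) n

/-- level of the pattern used at step k -/
def lv (k : ℕ) : ℕ := (Nat.unpair (Nat.unpair k).1).1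

/-- index of the pattern used at step k -/
def ix (k : ℕ) : ℕ := (Nat.unpair (Nat.unpair k).1).2

open Classical in
/-- the pattern written at step k -/
noncomputable def pat (k i : ℕ) : ℂ :=
  if ∑ q ∈ Finset.range (N k), ‖lift (lv k) (qq (ix k)) (k - lv k) q‖ ≤ k + 1 then
    lift (lv k) (qq (ix k)) (k - lv k) i
  else 0

/-- the sign of block b of level k + 1 -/
noncomputable def sa (k b : ℕ) : ℂ := rp (2 * (k + 5)) false b

/-- the stacking coefficients -/
noncomputable def g (k p : ℕ) : ℂ :=
  if p = N k then 1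
  else if 3 * N k ≤ p ∧ p < 4 * N k then pat k (4 * N k - 1 - p)
  else if 5 * N k ≤ p ∧ p + 2 * N k ≤ N (k + 1) ∧ N k ∣ p then sa k (p / N k) else 0

/-- projection from level k + 1 to level k -/
noncomputable def Pr (k : ℕ) (w : ℕ → ℂ) (i : ℕ) : ℂ :=
  ∑ p ∈ Finset.range (N (k + 1)), g k p * w (i + p)

/-- ambient space -/
abbrev Am : Type := FS.Am

/-- unweighted coordinates -/
noncomputable def nu (x : Am) (k j : ℕ) : ℂ := x (k, j) / (wt k j : ℂ)

/-- compatible sequences -/
def Comp (x : Am) : Prop :=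
  (∀ k j, N k ≤ j → nu x k j = 0) ∧ ∀ k i, i < N k → nu x k i = Pr k (nu x (k + 1)) i

/-- the unweighted coordinates of the image under the operator -/
noncomputable def sh (x : Am) (k j : ℕ) : ℂ :=
  if j < N k then
    (if j = 0 then ∑ p ∈ Finset.range (N (k + 1)), g k p * nu x (k + 1) (p - 1)
      else nu x k (j - 1))
  else 0

/-- a vector living on one level -/
noncomputable def lev (m : ℕ) (v : ℕ → ℂ) : Am :=
  ∑ j ∈ Finset.range (N m), lp.single 2 (m, j) ((wt m j : ℂ) * v j)

/-- a vector of level n together with all its projections -/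
noncomputable def vec : ℕ → (ℕ → ℂ) → Am
  | 0, v => lev 0 v
  | n + 1, v => vec n (Pr n v) + lev (n + 1) v

/-- position of a dyadic integer at level k -/
noncomputable def jj (k : ℕ) (z : ℤ_[2]) : ℕ := (pk (ex k) z).val

/-- the digit of order m is ordinary -/
def Gd (m : ℕ) (z : ℤ_[2]) : Prop := 5 * N m ≤ jj (m + 1) z ∧ jj (m + 1) z + N m < N (m + 1)

/-- product of the signs of the digits below m -/
noncomputable def sg (m : ℕ) (z : ℤ_[2]) : ℂ :=
  ∏ i ∈ Finset.range m, sa i (jj (i + 1) z / N i)

/-- the signed point mass of level m attached to a dyadic integer -/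
noncomputable def pt (m : ℕ) (z : ℤ_[2]) : ℕ → ℂ := fun j => sg m z * dl (jj m z) j

/-- the vector attached to a dyadic integer -/
noncomputable def F (z : ℤ_[2]) : Am := limUnder atTop fun n => vec n (pt n z)

/-- sum of the p-th powers of the norms of the point vectors of level n -/
noncomputable def SS (p : ℝ) (n : ℕ) : ℝ := ∑ j ∈ Finset.range (N n), ‖vec n (dl j)‖ ^ p

/-- sum of the p-th powers of the weights of level n -/
noncomputable def WW (p : ℝ) (n : ℕ) : ℝ := ∑ j ∈ Finset.range (N n), wt n j ^ p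

end Pool.Agent.Lib.MP_e13bdd_an.FM
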