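import Pool.Agent.Lib.MP_e13bdd_an.FM.Oper

/-! Uniqueness from the high levels, and absence of eigenvectors. -/

namespace Pool.Agent.Lib.MP_e13bdd_an.FM

theorem comp_ext {x y : Am} (hx : Comp x) (hy : Comp y)
    (h : ∀ K, ∃ m, K ≤ m ∧ ∀ j, 1 ≤ j → j < N m → nu x m j = nu y m j) : x = y := by
  have step : ∀ m, (∀ j, N m ≤ j → j < N (m + 1) → nu x (m + 1) j = nu y (m + 1) j) →
      ∀ j, nu x m j = nu y m j := by
    intro m hm j
    rcases lt_or_ge j (N m) with hj | hj
    · rw [hx.2 m j hj, hy.2 m j hj]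
      exact Pr_congr m _ _ hm j hj
    · rw [hx.1 m j hj, hy.1 m j hj]
  have all : ∀ n m, (∀ j, 1 ≤ j → j < N (m + n + 1) →
      nu x (m + n + 1) j = nu y (m + n + 1) j) → ∀ j, nu x m j = nu y m j := by
    intro n
    induction n with
    | zero =>
      intro m hm
      refine step m fun j h1 h2 => hm j ?_ h2
      have := N_ge m
      omega
    | succ n ih =>
      intro m hm
      refine step m fun j _ _ => ih (m + 1) ?_ j
      rwa [show m + 1 + n + 1 = m + (n + 1) + 1 by omega]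
  refine ext_nu fun k j => ?_
  obtain ⟨m, hm, h'⟩ := h (k + 1)
  refine all (m - (k + 1)) k ?_ j
  rwa [show k + (m - (k + 1)) + 1 = m by omega]

theorem comp_smul (c : ℂ) {x : Am} (hx : Comp x) : Comp (c • x) := by
  refine ⟨fun k j hj => ?_, fun k i hi => ?_⟩
  · rw [nu_smul, hx.1 k j hj, mul_zero]
  · rw [nu_smul, hx.2 k i hi, ← Pr_smul]
    congr 1
    funext j
    rw [nu_smul]

theorem no_eigen {x : Am} (hx : Comp x) (c : ℂ) (h : ∀ k j, sh x k j = c * nu x k j) : x = 0 := by
  have rel : ∀ k j, j + 1 < N k → nu x k j = c * nu x k (j + 1) := by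
    intro k j hj
    have := h k (j + 1)
    rwa [sh, if_pos hj, if_neg (Nat.succ_ne_zero j), Nat.add_sub_cancel] at this
  have down : ∀ k (B : ℝ), M (k + 1) * ‖nu x (k + 1) (N k - 1)‖ ≤ B →
      M (k + 1) * ‖nu x (k + 1) (N (k + 1) - 1)‖ ≤ B →
      ∀ i, i < N k → M k * ‖nu x k i‖ ≤ B := by
    intro k B h1 h2 i hi
    have h3 := Pr_eig k (nu x (k + 1)) c (rel (k + 1)) i hi
    rw [← hx.2 k i hi] at h3
    have h4 := mul_le_mul_of_nonneg_left h3 (M_pos k).le
    rw [← mul_assoc, ← M_succ] at h4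
    refine h4.trans ?_
    rcases le_total ‖nu x (k + 1) (N k - 1)‖ ‖nu x (k + 1) (N (k + 1) - 1)‖ with h5 | h5
    · rwa [max_eq_right h5]
    · rwa [max_eq_left h5]
  obtain ⟨b, hb⟩ : ∃ b : ℕ → ℝ,
      b = fun k => ‖x (k + 1, N k - 1)‖ + ‖x (k + 1, N (k + 1) - 1)‖ := ⟨_, rfl⟩
  have all : ∀ n k i, i < N k → M k * ‖nu x k i‖ ≤ b (k + n) := by
    intro n
    induction n with
    | zero =>
      intro k
      have e1 := norm_nu x (k + 1) (N k - 1)
      have e2 := norm_nu x (k + 1) (N (k + 1) - 1)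
      rw [wt_heavy _ _ (dd_first k)] at e1
      rw [wt_heavy _ _ (dd_top k)] at e2
      have p1 := norm_nonneg (x (k + 1, N k - 1))
      have p2 := norm_nonneg (x (k + 1, N (k + 1) - 1))
      refine down k _ ?_ ?_ <;> simp only [hb, Nat.add_zero] <;> linarith
    | succ n ih =>
      intro k
      have h1 := N_big k
      have h2 := N_ge k
      rw [show k + (n + 1) = k + 1 + n by omega]
      exact down k _ (ih (k + 1) _ (by omega)) (ih (k + 1) _ (by omega))
  have hlim : Filter.Tendsto b Filter.atTop (nhds 0) := by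
    have := (FS.eigen_tendsto x fun k => N k - 1).add
      (FS.eigen_tendsto x fun k => N (k + 1) - 1)
    rw [add_zero] at this
    rw [hb]
    exact this
  refine ext_nu fun k i => ?_
  rw [nu_zero]
  rcases lt_or_ge i (N k) with hi | hi
  · have h1 : M k * ‖nu x k i‖ ≤ 0 := by
      refine ge_of_tendsto hlim (Filter.eventually_atTop.2 ⟨k, fun m hm => ?_⟩)
      have := all (m - k) k i hi
      rwa [show k + (m - k) = m by omega] at this
    exact norm_le_zero_iff.1 (le_of_mul_le_mul_left (by rwa [mul_zero]) (M_pos k))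
  · exact hx.1 k i hi

end Pool.Agent.Lib.MP_e13bdd_an.FM
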