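import Pool.Agent.Lib.MP_e13bdd_an.FM.SkewA

/-! The symmetrized image measure of a sign equivariant map. -/

namespace Pool.Agent.Lib.MP_e13bdd_an.FM

open MeasureTheory Filter Topology

/-- the symmetrized image measure -/
noncomputable def sym {E : Type*} [NormedAddCommGroup E] [MeasurableSpace E] (G : ℤ_[2] → E) :
    Measure E :=
  (2⁻¹ : ENNReal) • (PP.map G + PP.map fun z => -G z)

theorem sym_apply {E : Type*} [NormedAddCommGroup E] [MeasurableSpace E] [BorelSpace E]
    (G : ℤ_[2] → E) (hG : AEMeasurable G PP) (A : Set E) (hA : MeasurableSet A) :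
    sym G A = 2⁻¹ * (PP {z | G z ∈ A} + PP {z | -G z ∈ A}) := by
  have hN : AEMeasurable (fun z => -G z) PP := hG.neg
  rw [sym, Measure.smul_apply, Measure.add_apply, Measure.map_apply_of_aemeasurable hG hA,
    Measure.map_apply_of_aemeasurable hN hA]
  rfl

theorem sym_prob {E : Type*} [NormedAddCommGroup E] [MeasurableSpace E] [BorelSpace E]
    (G : ℤ_[2] → E) (hG : AEMeasurable G PP) : IsProbabilityMeasure (sym G) := by
  refine ⟨?_⟩
  rw [sym_apply G hG _ MeasurableSet.univ]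
  simp only [Set.mem_univ, Set.ofPred_true, measure_univ, one_add_one_eq_two]
  exact ENNReal.inv_mul_cancel two_ne_zero ENNReal.ofNat_ne_top

theorem sym_moment {E : Type*} [NormedAddCommGroup E] [MeasurableSpace E] [BorelSpace E]
    (G : ℤ_[2] → E) (hG : AEMeasurable G PP) (p : ℝ)
    (h : Integrable (fun z => ‖G z‖ ^ p) PP) : Integrable (fun x => ‖x‖ ^ p) (sym G) := by
  have hN : AEMeasurable (fun z => -G z) PP := hG.neg
  have hm : Measurable fun x : E => ‖x‖ ^ p := measurable_norm.pow_const p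
  refine Integrable.smul_measure (integrable_add_measure.2 ⟨?_, ?_⟩) (by simp)
  · exact (integrable_map_measure hm.aestronglyMeasurable hG).2 h
  · refine (integrable_map_measure hm.aestronglyMeasurable hN).2 ?_
    simpa only [Function.comp_def, norm_neg] using h

lemma skewB_shift {E : Type*} [NormedAddCommGroup E] [NormedSpace ℂ E] (T : E →L[ℂ] E)
    (G : ℤ_[2] → E) (h : ∀ᵐ z ∂PP, T (G z) = G (1 + z) ∨ T (G z) = -G (1 + z)) (A : Set E) :
    ((fun z : ℤ_[2] => 1 + z) ⁻¹' ({z | G z ∈ A} ∪ {z | -G z ∈ A}) =ᵐ[PP]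
      (({z | G z ∈ T ⁻¹' A} ∪ {z | -G z ∈ T ⁻¹' A} : Set ℤ_[2]))) ∧
    ((fun z : ℤ_[2] => 1 + z) ⁻¹' ({z | G z ∈ A} ∩ {z | -G z ∈ A}) =ᵐ[PP]
      (({z | G z ∈ T ⁻¹' A} ∩ {z | -G z ∈ T ⁻¹' A} : Set ℤ_[2]))) := by
  constructor
  · refine eventuallyEq_set.2 (h.mono fun z hz => ?_)
    simp only [Set.mem_preimage, Set.mem_union, Set.mem_ofPred_eq, map_neg]
    rcases hz with e | e
    · rw [e]
    · rw [e, neg_neg, or_comm]
  · refine eventuallyEq_set.2 (h.mono fun z hz => ?_)
    simp only [Set.mem_preimage, Set.mem_inter_iff, Set.mem_ofPred_eq, map_neg]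
    rcases hz with e | e
    · rw [e]
    · rw [e, neg_neg, and_comm]

theorem sym_pres {E : Type*} [NormedAddCommGroup E] [NormedSpace ℂ E] [MeasurableSpace E]
    [BorelSpace E] (T : E →L[ℂ] E) (G : ℤ_[2] → E) (hG : AEMeasurable G PP)
    (h : ∀ᵐ z ∂PP, T (G z) = G (1 + z) ∨ T (G z) = -G (1 + z)) :
    MeasurePreserving T (sym G) (sym G) := by
  have hN : AEMeasurable (fun z => -G z) PP := hG.neg
  have hT : Measurable T := T.continuous.measurable
  refine ⟨hT, Measure.ext fun A hA => ?_⟩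
  have n1 : NullMeasurableSet {z | G z ∈ A} PP := hG.nullMeasurable hA
  have n2 : NullMeasurableSet {z | -G z ∈ A} PP := hN.nullMeasurable hA
  have n3 : NullMeasurableSet {z | -G z ∈ T ⁻¹' A} PP := hN.nullMeasurable (hT hA)
  obtain ⟨e1, e2⟩ := skewB_shift T G h A
  have mp := FS.ergodic_add.toMeasurePreserving
  rw [Measure.map_apply hT hA, sym_apply G hG _ (hT hA), sym_apply G hG A hA,
    ← measure_union_add_inter₀ _ n3, ← measure_union_add_inter₀ _ n2, ← measure_congr e1,
    ← measure_congr e2, mp.measure_preimage (n1.union n2), mp.measure_preimage (n1.inter n2)]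

theorem sym_ergodic {E : Type*} [NormedAddCommGroup E] [NormedSpace ℂ E] [CompleteSpace E]
    [SecondCountableTopology E] [MeasurableSpace E] [BorelSpace E] (T : E →L[ℂ] E)
    (hno : ∀ (c : ℂ) (x : E), T x = c • x → x = 0) (G : ℤ_[2] → E) (hG : Integrable G PP)
    (hne : ∀ᵐ z ∂PP, G z ≠ 0)
    (h : ∀ᵐ z ∂PP, T (G z) = G (1 + z) ∨ T (G z) = -G (1 + z)) : Ergodic T (sym G) := by
  classical
  have hM : AEMeasurable G PP := hG.aestronglyMeasurable.aemeasurable
  have hN : AEMeasurable (fun z => -G z) PP := hM.neg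
  refine ⟨sym_pres T G hM h, ⟨fun A hA hinv => ?_⟩⟩
  have n1 : NullMeasurableSet {z | G z ∈ A} PP := hM.nullMeasurable hA
  have n2 : NullMeasurableSet {z | -G z ∈ A} PP := hN.nullMeasurable hA
  obtain ⟨e1, e2⟩ := skewB_shift T G h A
  rw [hinv] at e1 e2
  have qe := FS.ergodic_add.quasiErgodic
  have null : ∀ B : Set E, MeasurableSet B → (∀ᵐ z ∂PP, G z ∉ B ∧ -G z ∉ B) → sym G B = 0 := by
    intro B hB k
    have k1 : PP {z | G z ∈ B} = 0 := measure_eq_zero_iff_ae_notMem.2 (k.mono fun _ a => a.1)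
    have k2 : PP {z | -G z ∈ B} = 0 := measure_eq_zero_iff_ae_notMem.2 (k.mono fun _ a => a.2)
    rw [sym_apply G hM B hB, k1, k2, add_zero, mul_zero]
  rw [eventuallyConst_set]
  rcases qe.ae_empty_or_univ₀ (n1.union n2) e1 with u | u
  · right
    refine measure_eq_zero_iff_ae_notMem.1 (null A hA ?_)
    filter_upwards [eventuallyEq_set.1 u] with z hz
    exact not_or.1 fun k => hz.1 k
  rcases qe.ae_empty_or_univ₀ (n1.inter n2) e2 with v | v
  swap
  · left
    have := measure_eq_zero_iff_ae_notMem.1 (null Aᶜ hA.compl ?_)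
    · exact this.mono fun _ a => not_not.1 a
    · filter_upwards [eventuallyEq_set.1 v] with z hz
      exact ⟨not_not.2 (hz.2 trivial).1, not_not.2 (hz.2 trivial).2⟩
  exfalso
  have hx : ∀ᵐ z ∂PP, (G z ∈ A ∨ -G z ∈ A) ∧ ¬ (G z ∈ A ∧ -G z ∈ A) := by
    filter_upwards [eventuallyEq_set.1 u, eventuallyEq_set.1 v] with z a b
    exact ⟨a.2 trivial, fun k => b.1 k⟩
  have hx' := FS.ergodic_add.toMeasurePreserving.quasiMeasurePreserving.ae hx
  have hTA : ∀ x, T x ∈ A ↔ x ∈ A := fun x => by rw [← Set.mem_preimage, hinv]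
  have hi : Integrable (fun z => if G z ∈ A then G z else -G z) PP := by
    have a1 := (hG.indicator₀ n1).add (hG.neg.indicator₀ n1.compl)
    refine a1.congr (Eventually.of_forall fun z => ?_)
    by_cases k : G z ∈ A
    · simp [Set.indicator, k]
    · simp [Set.indicator, k]
  have hz := equi_zero T hno _ hi (by
    filter_upwards [h, hx, hx'] with z a b c
    by_cases k : G z ∈ A
    · have k1 := (hTA _).2 k
      rw [if_pos k]
      rcases a with e | e
      · rw [if_pos (e ▸ k1), e]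
      · rw [if_neg fun k2 => c.2 ⟨k2, e ▸ k1⟩, e]
    · have k1 := (hTA _).2 (b.1.resolve_left k)
      rw [if_neg k]
      rw [map_neg] at k1 ⊢
      rcases a with e | e
      · rw [if_neg fun k2 => c.2 ⟨k2, e ▸ k1⟩, e]
      · rw [e, neg_neg] at k1 ⊢
        rw [if_pos k1])
  obtain ⟨z, a, b⟩ := (hz.and hne).exists
  by_cases k : G z ∈ A
  · rw [if_pos k] at a
    exact b a
  · rw [if_neg k] at a
    exact b (neg_eq_zero.1 a)

end Pool.Agent.Lib.MP_e13bdd_an.FM
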