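import Pool.Agent.Lib.MP_e13bdd_an.FM.MomC
import Pool.Agent.Lib.MP_e13bdd_an.FM.Cond
import Pool.Agent.Lib.MP_e13bdd_an.FM.Eigen
import Pool.Agent.Lib.MP_e13bdd_an.FM.SkewB

/-! The measure, and the transfer to any separable infinite dimensional Hilbert space. -/

namespace Pool.Agent.Lib.MP_e13bdd_an.FM

open MeasureTheory TopologicalSpace Filter Topology

universe u

lemma final_ae_shift : ∀ᵐ z ∂PP, ∃ K, ∀ m, K ≤ m → Gd m (1 + z) :=
  FS.final_ae (p := fun z => ∃ K, ∀ m, K ≤ m → Gd m z) ae_gd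

lemma final_step (T : Am →L[ℂ] Am) (hT : ∀ x k j, nu (T x) k j = sh x k j) :
    ∀ᵐ z ∂PP, T (F z) = F (1 + z) ∨ T (F z) = -F (1 + z) := by
  filter_upwards [ae_gd, final_ae_shift] with z hz hz1
  obtain ⟨K, hK⟩ := hz
  obtain ⟨L, hL⟩ := hz1
  obtain ⟨h1, -, h2⟩ := F_spec z K hK
  obtain ⟨h3, -, h4⟩ := F_spec (1 + z) L hL
  have key : ∀ (s : ℂ) (m : ℕ), max K L ≤ m → sg m z = s * sg m (1 + z) →
      ∀ j, 1 ≤ j → j < N m → nu (T (F z)) m j = nu (s • F (1 + z)) m j := by
    intro s m hm hs j hj1 hj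
    rw [hT, nu_smul, h4 m (le_of_max_le_right hm) j hj]
    unfold sh
    rw [if_pos hj, if_neg (by omega), h2 m (le_of_max_le_left hm) (j - 1) (by omega)]
    unfold pt dl
    simp only [jj_succ m z j hj1 hj]
    rw [hs, mul_assoc]
  have hc : ∀ m, sg m z = 1 * sg m (1 + z) ∨ sg m z = -1 * sg m (1 + z) := fun m => by
    rcases sg_sign m z with a | a <;> rcases sg_sign m (1 + z) with b | b <;> simp [a, b]
  have fin : ∀ s : ℂ, (∃ᶠ m in atTop, sg m z = s * sg m (1 + z)) → T (F z) = s • F (1 + z) := by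
    intro s hs
    refine comp_ext (comp_sh h1 (hT _)) (comp_smul s h3) fun A => ?_
    obtain ⟨m, hm, hm'⟩ := frequently_atTop.1 hs (max A (max K L))
    exact ⟨m, le_of_max_le_left hm, key s m (le_of_max_le_right hm) hm'⟩
  rcases frequently_or_distrib.1 (Frequently.of_forall (f := atTop) hc) with h | h
  · left
    rw [fin 1 h, one_smul]
  · right
    rw [fin (-1) h, neg_one_smul]

lemma final_ne : ∀ᵐ z ∂PP, F z ≠ 0 := by
  filter_upwards [ae_gd] with z hz h0
  obtain ⟨K, hK⟩ := hz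
  have := (F_spec z K hK).2.2 K le_rfl _ (jj_lt K z)
  rw [h0, nu_zero] at this
  rcases sg_sign K z with a | a <;> simp [pt, dl, a] at this

theorem model : ∃ (S : Submodule ℂ Am) (_ : IsClosed (S : Set Am)) (T : S →L[ℂ] S)
    (μ : Measure S), IsProbabilityMeasure μ ∧ Ergodic T μ ∧ μ {0} = 0 ∧
      (∀ U : Set S, IsOpen U → U.Nonempty → μ U ≠ 0) ∧
      (∀ p : ℝ, 0 < p → p < 2 → Integrable (fun x => ‖x‖ ^ p) μ) ∧
      ∀ (c : ℂ) (x : S), T x = c • x → x = 0 := by
  classical
  obtain ⟨S, hS, hmem⟩ := exists_Hs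
  obtain ⟨T, hT⟩ := exists_T
  have := FS.separable_Am
  have : SecondCountableTopology Am := UniformSpace.secondCountable_of_separable _
  have : CompleteSpace S := hS.completeSpace_coe
  obtain ⟨TS, hTS⟩ : ∃ TS : S →L[ℂ] S, ∀ x : S, (TS x : Am) = T x :=
    ⟨(T.comp S.subtypeL).codRestrict S fun x => (hmem _).2 (comp_sh ((hmem _).1 x.2) (hT _)),
      fun _ => rfl⟩
  obtain ⟨G, hG0⟩ : ∃ G : ℤ_[2] → S, ∀ z, F z ∈ S → (G z : Am) = F z :=
    ⟨fun z => if h : F z ∈ S then ⟨F z, h⟩ else 0, fun z h => by simp only [dif_pos h]⟩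
  have hG : ∀ᵐ z ∂PP, (G z : Am) = F z := by
    filter_upwards [ae_gd] with z hz
    obtain ⟨K, hK⟩ := hz
    exact hG0 z ((hmem _).2 (F_spec z K hK).1)
  have hG1 : ∀ᵐ z ∂PP, (G (1 + z) : Am) = F (1 + z) :=
    FS.final_ae (p := fun z => (G z : Am) = F z) hG
  have hm : AEMeasurable G PP := by
    have h1 : AEMeasurable (fun z => (G z : Am)) PP :=
      aemeasurable_F.congr (hG.mono fun z hz => hz.symm)
    exact h1.subtype_mk (s := (S : Set Am)) (hfs := fun z => (G z).2)
  have hstep : ∀ᵐ z ∂PP, TS (G z) = G (1 + z) ∨ TS (G z) = -G (1 + z) := by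
    filter_upwards [hG, hG1, final_step T hT] with z h1 h2 h3
    refine h3.imp (fun h => Subtype.ext ?_) fun h => Subtype.ext ?_
    · rw [hTS, h1, h2, h]
    · rw [hTS, h1, Submodule.coe_neg, h2, h]
  have hmom : ∀ p : ℝ, 0 < p → p < 2 → Integrable (fun z => ‖G z‖ ^ p) PP := fun p h0 h2 =>
    (moment_F p h0 h2).congr (hG.mono fun z hz => by
      show ‖F z‖ ^ p = ‖G z‖ ^ p
      rw [← hz]
      rfl)
  have hint : Integrable G PP := by
    rw [← integrable_norm_iff hm.aestronglyMeasurable]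
    simpa using hmom 1 one_pos one_lt_two
  have hne : ∀ᵐ z ∂PP, G z ≠ 0 := by
    filter_upwards [hG, final_ne] with z h1 h2 h3
    apply h2
    rw [← h1, h3]
    rfl
  have hno : ∀ (c : ℂ) (x : S), TS x = c • x → x = 0 := fun c x hx => by
    apply Subtype.ext
    refine no_eigen ((hmem _).1 x.2) c fun k j => ?_
    rw [← hT, ← hTS, hx, ← nu_smul]
    rfl
  refine ⟨S, hS, TS, sym G, sym_prob G hm, sym_ergodic TS hno G hint hne hstep, ?_,
    fun U hU hne => ?_, fun p h0 h2 => sym_moment G hm p (hmom p h0 h2), hno⟩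
  · rw [sym_apply G hm _ (measurableSet_singleton 0)]
    have e1 : PP {z | G z ∈ ({0} : Set S)} = 0 := by
      refine measure_mono_null ?_ hne
      exact fun z hz hg => hg hz
    have e2 : PP {z | -G z ∈ ({0} : Set S)} = 0 := by
      refine measure_mono_null ?_ hne
      exact fun z hz hg => hg (neg_eq_zero.1 hz)
    rw [e1, e2, add_zero, mul_zero]
  · obtain ⟨x, hx⟩ := hne
    obtain ⟨ε, hε, hb⟩ := Metric.isOpen_iff.1 hU x hx
    obtain ⟨K, J, hJ, hcl⟩ := F_close ((hmem _).1 x.2) ε hε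
    rw [sym_apply G hm _ hU.measurableSet]
    intro h0
    rw [mul_eq_zero, add_eq_zero] at h0
    have h1 := h0.resolve_left (by simp)
    refine pos_E K J hJ (measure_mono_null ?_ (measure_union_null h1.1 h1.2))
    intro z hz
    have e := hG0 z ((hmem _).2 (F_spec z K hz.2).1)
    refine (hcl z hz.1 hz.2).imp (fun h => hb ?_) fun h => hb ?_
    · rw [Metric.mem_ball, Subtype.dist_eq, dist_eq_norm, e]
      exact h
    · rw [Metric.mem_ball, Subtype.dist_eq, dist_eq_norm, Submodule.coe_neg, e]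
      exact h

theorem full (H : Type u) [NormedAddCommGroup H] [InnerProductSpace ℂ H] [CompleteSpace H]
    [SeparableSpace H] [MeasurableSpace H] [BorelSpace H] (h : ¬ FiniteDimensional ℂ H) :
    ∃ (T : H →L[ℂ] H) (μ : Measure H), IsProbabilityMeasure μ ∧
      (∀ A, MeasurableSet A → μ (T ⁻¹' A) = μ A) ∧ μ {0} = 0 ∧
      (∀ A, MeasurableSet A → T ⁻¹' A = A → μ A = 0 ∨ μ A = 1) ∧
      (∀ U, IsOpen U → U.Nonempty → 0 < μ U) ∧
      (∀ p : ℝ, 0 < p → p < 2 → Integrable (fun x => ‖x‖ ^ p) μ) ∧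
      (∃ x : H, ∀ U, IsOpen U → U.Nonempty → ∃ δ : ℝ, 0 < δ ∧
        ∀ᶠ N : ℕ in atTop, δ * N ≤ ({n | n < N ∧ (T ^ n) x ∈ U}.ncard : ℝ)) ∧
      ∀ (c : ℂ) (x : H), T x = c • x → x = 0 := by
  obtain ⟨S, hS, TS, μ, hμ, herg, h0, hsupp, hmom, hno⟩ := model
  have := FS.separable_Am
  have : SecondCountableTopology Am := UniformSpace.secondCountable_of_separable _
  have : SecondCountableTopology H := UniformSpace.secondCountable_of_separable _
  have : CompleteSpace S := hS.completeSpace_coe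
  have hinf : ¬ FiniteDimensional ℂ S := by
    intro hf
    have : Nontrivial S := by
      by_contra hn
      have hs := not_nontrivial_iff_subsingleton.1 hn
      rw [Subsingleton.eq_univ_of_nonempty (Set.singleton_nonempty (0 : S)), measure_univ] at h0
      exact one_ne_zero h0
    obtain ⟨c, hc⟩ := Module.End.exists_eigenvalue (TS : Module.End ℂ S)
    obtain ⟨x, hx⟩ := hc.exists_hasEigenvector
    exact hx.2 (hno c x hx.apply_eq_smul)
  obtain ⟨e₁⟩ := iso_l2 S hinf
  obtain ⟨e₂⟩ := iso_l2 H h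
  let e : S ≃L[ℂ] H := (e₁.trans e₂.symm).toContinuousLinearEquiv
  have hnorm : ∀ x, ‖e x‖ = ‖x‖ := fun x => (e₁.trans e₂.symm).norm_map x
  have hm : Measurable e := e.continuous.measurable
  let T : H →L[ℂ] H := (e : S →L[ℂ] H) ∘L TS ∘L (e.symm : H →L[ℂ] S)
  have hT : ∀ x, T x = e (TS (e.symm x)) := fun _ => rfl
  have hp : IsProbabilityMeasure (μ.map e) := Measure.isProbabilityMeasure_map hm.aemeasurable
  have he : Ergodic T (μ.map e) :=
    MeasurePreserving.ergodic_of_ergodic_semiconj ⟨hm, rfl⟩ herg T.continuous.measurable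
      fun x => by rw [hT, e.symm_apply_apply]
  have hs : ∀ U : Set H, IsOpen U → U.Nonempty → 0 < μ.map e U := fun U hU hne => by
    rw [Measure.map_apply hm hU.measurableSet]
    exact pos_iff_ne_zero.2 (hsupp _ (hU.preimage e.continuous) (hne.preimage e.surjective))
  obtain ⟨y, hy⟩ := FS.freq_point he hs
  refine ⟨T, μ.map e, hp, fun A hA => he.measure_preimage hA.nullMeasurableSet, ?_,
    fun A hA hTA => he.prob_eq_zero_or_one hA hTA, hs, fun p h1 h2 => ?_, ⟨y, ?_⟩,
    fun c x hx => ?_⟩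
  · rw [Measure.map_apply hm (measurableSet_singleton 0)]
    refine measure_mono_null (fun x hx => ?_) h0
    exact e.injective ((show e x = 0 from hx).trans (map_zero e).symm)
  · rw [integrable_map_measure (measurable_norm.pow_const p).aestronglyMeasurable hm.aemeasurable]
    simpa only [Function.comp_def, hnorm] using hmom p h1 h2
  · simpa only [FunLike.coe_pow_eq_iterate] using hy
  · have h1 : TS (e.symm x) = c • e.symm x :=
      e.injective (by rw [← hT, hx, map_smul, e.apply_symm_apply])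
    rw [← e.apply_symm_apply x, hno c _ h1, map_zero]

end Pool.Agent.Lib.MP_e13bdd_an.FM
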