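import Pool.Agent.Results.MP_e13bdd_an.SharpMoment

/-! The statement with moments implies the earlier statement with full support word for word. -/

namespace Pool.Agent.Lib.MP_e13bdd_an.FM

universe u

theorem implies_full (H : Type u) [NormedAddCommGroup H] [InnerProductSpace ℂ H]
    [CompleteSpace H] [TopologicalSpace.SeparableSpace H] [MeasurableSpace H] [BorelSpace H]
    (h : ¬ FiniteDimensional ℂ H) :
    ∃ (T : H →L[ℂ] H) (μ : MeasureTheory.Measure H), MeasureTheory.IsProbabilityMeasure μ ∧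
      (∀ A, MeasurableSet A → μ (T ⁻¹' A) = μ A) ∧ μ {0} = 0 ∧
      (∀ A, MeasurableSet A → T ⁻¹' A = A → μ A = 0 ∨ μ A = 1) ∧
      (∀ U, IsOpen U → U.Nonempty → 0 < μ U) ∧
      (∃ x : H, ∀ U, IsOpen U → U.Nonempty → ∃ δ : ℝ, 0 < δ ∧
        ∀ᶠ N : ℕ in Filter.atTop, δ * N ≤ ({n | n < N ∧ (T ^ n) x ∈ U}.ncard : ℝ)) ∧
      ∀ (c : ℂ) (x : H), T x = c • x → x = 0 := by
  obtain ⟨T, μ, h1, h2, h3, h4, h5, -, h6, h7⟩ :=
    Pool.Agent.Results.MP_e13bdd_an.SharpMoment.result H h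
  exact ⟨T, μ, h1, h2, h3, h4, h5, h6, h7⟩

end Pool.Agent.Lib.MP_e13bdd_an.FM
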