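import Pool.Agent.Lib.MP_e13bdd_an.FM.Wt

/-! Moments of the weights, and a lemma on real sequences. -/

namespace Pool.Agent.Lib.MP_e13bdd_an.FM

lemma MomA_small {x y p : ℝ} (h1 : 1 ≤ p) (hx : 0 ≤ x) (hxy : x ≤ y) (hy : y ≤ 1) : x ^ p ≤ y :=
  (Real.rpow_le_self_of_le_one hx (hxy.trans hy) h1).trans hxy

lemma MomA_mod (f : ℕ → ℝ) (a r : ℕ) :
    ∑ j ∈ Finset.range (a * r), f (j % a) = r * ∑ i ∈ Finset.range a, f i := by
  induction r with
  | zero => simp
  | succ r ih =>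
    rw [Nat.mul_succ, Finset.sum_range_add, ih]
    have h : ∑ x ∈ Finset.range a, f ((a * r + x) % a) = ∑ i ∈ Finset.range a, f i :=
      Finset.sum_congr rfl fun x hx => by
        rw [Nat.mul_add_mod, Nat.mod_eq_of_lt (Finset.mem_range.1 hx)]
    rw [h]
    push_cast
    ring

lemma MomA_term (p : ℝ) (h1 : 1 ≤ p) (n j : ℕ) :
    wt (n + 1) j ^ p ≤ (1 / 2) ^ (n + 1) + (if 3 * N n ≤ j ∧ j < 4 * N n then (1 : ℝ) else 0) +
      M (n + 1) ^ p * (1 / 2) ^ (N n - 1 - j % N n) := by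
  have hw := (wt_pos (n + 1) j).le
  have hM := (M_pos (n + 1)).le
  have a1 : (0 : ℝ) ≤ (1 / 2) ^ (n + 1) := by positivity
  have a2 : (0 : ℝ) ≤ (if 3 * N n ≤ j ∧ j < 4 * N n then (1 : ℝ) else 0) := by
    split_ifs <;> norm_num
  have a3 : (0 : ℝ) ≤ M (n + 1) ^ p * (1 / 2) ^ (N n - 1 - j % N n) := by positivity
  have hhalf : ∀ m : ℕ, ((1 : ℝ) / 2) ^ m ≤ 1 := fun m => pow_le_one₀ (by norm_num) (by norm_num)
  rcases wt_upper n j with h | ⟨h3, h4, h⟩ | h
  · have := MomA_small h1 hw h (hhalf _)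
    linarith
  · have := MomA_small h1 hw h le_rfl
    rw [if_pos ⟨h3, h4⟩]
    linarith
  · have b1 := Real.rpow_le_rpow hw h (by linarith : (0 : ℝ) ≤ p)
    rw [Real.mul_rpow hM (by positivity)] at b1
    have b2 : (((1 : ℝ) / 2) ^ (N n - 1 - j % N n)) ^ p ≤ (1 / 2) ^ (N n - 1 - j % N n) :=
      MomA_small h1 (by positivity) le_rfl (hhalf _)
    have b3 := mul_le_mul_of_nonneg_left b2 (Real.rpow_nonneg hM p)
    linarith

theorem WW_le (p : ℝ) (h1 : 1 ≤ p) (n : ℕ) :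
    WW p (n + 1) ≤ N (n + 1) * (1 / 2) ^ (n + 1) + N n + 2 * rr n * M (n + 1) ^ p := by
  unfold WW
  refine (Finset.sum_le_sum fun j _ => MomA_term p h1 n j).trans ?_
  rw [Finset.sum_add_distrib, Finset.sum_add_distrib, Finset.sum_const, Finset.card_range,
    nsmul_eq_mul, ← Finset.mul_sum]
  have c1 : ∑ j ∈ Finset.range (N (n + 1)),
      (if 3 * N n ≤ j ∧ j < 4 * N n then (1 : ℝ) else 0) ≤ N n := by
    rw [Finset.sum_boole]
    have h : ((Finset.range (N (n + 1))).filter fun j => 3 * N n ≤ j ∧ j < 4 * N n).card ≤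
        (Finset.Ico (3 * N n) (4 * N n)).card :=
      Finset.card_le_card fun j hj => Finset.mem_Ico.2 (Finset.mem_filter.1 hj).2
    rw [Nat.card_Ico] at h
    exact_mod_cast h.trans (by omega)
  have c2 : ∑ j ∈ Finset.range (N (n + 1)), ((1 : ℝ) / 2) ^ (N n - 1 - j % N n) ≤ rr n * 2 := by
    rw [N_succ, MomA_mod (fun i => ((1 : ℝ) / 2) ^ (N n - 1 - i)),
      Finset.sum_range_reflect (fun i => ((1 : ℝ) / 2) ^ i)]
    exact mul_le_mul_of_nonneg_left (sum_geometric_two_le _) (by positivity)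
  have c3 := mul_le_mul_of_nonneg_left c2 (Real.rpow_nonneg (M_pos (n + 1)).le p)
  linarith

theorem summable_M (p : ℝ) (h1 : 1 ≤ p) (h2 : p < 2) :
    Summable fun n => M (n + 1) ^ p / (N n : ℝ) := by
  refine summable_of_ratio_norm_eventually_le (r := 1 / 2) (by norm_num) ?_
  filter_upwards [Filter.eventually_ge_atTop ⌈7 / (2 - p)⌉₊] with n hn
  have hN : (0 : ℝ) < N n := by
    have := N_ge n
    exact_mod_cast (by omega : 0 < N n)
  have hM := (M_pos (n + 1)).le
  have hM2 := (M_pos (n + 1 + 1)).le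
  have hn' : 7 ≤ (n : ℝ) * (2 - p) := by
    have := (Nat.le_ceil (7 / (2 - p))).trans (Nat.cast_le.2 hn)
    rwa [div_le_iff₀ (by linarith)] at this
  have key : ((2 : ℝ) ^ (n + 1 + 7)) ^ p ≤ 1 / 2 * rr n := by
    have e1 : (1 / 2 * rr n : ℝ) = 2 ^ (((2 * n + 9 : ℕ)) : ℝ) := by
      rw [Real.rpow_natCast]
      unfold rr
      push_cast
      rw [show (4 : ℝ) = 2 ^ 2 by norm_num, ← pow_mul]
      ring
    rw [e1, ← Real.rpow_natCast, ← Real.rpow_mul (by norm_num)]
    refine Real.rpow_le_rpow_of_exponent_le (by norm_num) ?_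
    push_cast
    nlinarith
  have hr : (0 : ℝ) < rr n := by
    have := rr_ge n
    exact_mod_cast (by omega : 0 < rr n)
  rw [Real.norm_of_nonneg (by positivity), Real.norm_of_nonneg (by positivity), M_succ (n + 1),
    Real.mul_rpow hM (by positivity), N_succ]
  push_cast
  rw [div_le_iff₀ (by positivity)]
  have e2 : 1 / 2 * (M (n + 1) ^ p / (N n : ℝ)) * ((N n : ℝ) * rr n) =
      M (n + 1) ^ p * (1 / 2 * rr n) := by
    field_simp
  rw [e2]
  exact mul_le_mul_of_nonneg_left key (Real.rpow_nonneg hM p)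

theorem summable_rr : Summable fun n : ℕ => ((n : ℝ) + 2) ^ 2 / (rr n : ℝ) := by
  have h := summable_pow_mul_geometric_of_norm_lt_one (R := ℝ) 2 (r := 1 / 4) (by norm_num)
  refine (((summable_nat_add_iff 2).2 h).mul_right ((1 / 4) ^ 3)).congr fun n => ?_
  unfold rr
  push_cast
  rw [mul_assoc, ← pow_add, one_div, inv_pow, div_eq_mul_inv]

theorem summable_WW (p : ℝ) (h1 : 1 ≤ p) (h2 : p < 2) :
    Summable fun n => WW p (n + 1) / (N (n + 1) : ℝ) := by
  have s1 : Summable fun n : ℕ => ((1 : ℝ) / 2) ^ (n + 1) :=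
    (summable_nat_add_iff 1).2 summable_geometric_two
  refine Summable.of_nonneg_of_le (fun n => ?_) (fun n => ?_)
    ((s1.add summable_rr).add ((summable_M p h1 h2).mul_left 2))
  · exact div_nonneg (Finset.sum_nonneg fun j _ => Real.rpow_nonneg (wt_pos _ _).le _)
      (Nat.cast_nonneg _)
  · have hN : (0 : ℝ) < N n := by
      have := N_ge n
      exact_mod_cast (by omega : 0 < N n)
    have hr : (0 : ℝ) < rr n := by
      have := rr_ge n
      exact_mod_cast (by omega : 0 < rr n)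
    have h := WW_le p h1 n
    have e : (N (n + 1) : ℝ) = N n * rr n := by rw [N_succ]; push_cast; ring
    rw [e] at h ⊢
    rw [div_le_iff₀ (by positivity)]
    have e2 : ((1 / 2) ^ (n + 1) + ((n : ℝ) + 2) ^ 2 / rr n + 2 * (M (n + 1) ^ p / N n)) *
        ((N n : ℝ) * rr n) = (N n : ℝ) * rr n * (1 / 2) ^ (n + 1) + ((n : ℝ) + 2) ^ 2 * N n +
          2 * rr n * M (n + 1) ^ p := by
      field_simp
    have h3 : (1 : ℝ) ≤ ((n : ℝ) + 2) ^ 2 := by
      have : (0 : ℝ) ≤ n := Nat.cast_nonneg n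
      nlinarith
    have h4 := mul_le_mul_of_nonneg_right h3 hN.le
    rw [e2]
    linarith

theorem seq_bdd (u a b : ℕ → ℝ) (hu : ∀ n, 0 ≤ u n) (ha : ∀ n, 0 ≤ a n) (hb : ∀ n, 0 ≤ b n)
    (sa : Summable a) (sb : Summable b) (h : ∀ n, u (n + 1) ≤ (1 + a n) * u n + b n) :
    ∃ C, ∀ n, u n ≤ C := by
  have key : ∀ n, u n ≤ Real.exp (∑ i ∈ Finset.range n, a i) *
      (u 0 + ∑ i ∈ Finset.range n, b i) := by
    intro n
    induction n with
    | zero => simp
    | succ n ih =>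
      rw [Finset.sum_range_succ, Finset.sum_range_succ, Real.exp_add]
      have e1 : 1 + a n ≤ Real.exp (a n) := by linarith [Real.add_one_le_exp (a n)]
      have e2 : 1 ≤ Real.exp (∑ i ∈ Finset.range n, a i) * Real.exp (a n) := by
        rw [← Real.exp_add]
        exact Real.one_le_exp (add_nonneg (Finset.sum_nonneg fun i _ => ha i) (ha n))
      have e3 := mul_le_mul e1 ih (hu n) (Real.exp_pos _).le
      have e4 := mul_le_mul_of_nonneg_right e2 (hb n)
      have e5 := h n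
      nlinarith
  refine ⟨Real.exp (∑' i, a i) * (u 0 + ∑' i, b i), fun n => (key n).trans ?_⟩
  refine mul_le_mul (Real.exp_le_exp.2 (sa.sum_le_tsum _ fun i _ => ha i)) ?_
    (add_nonneg (hu 0) (Finset.sum_nonneg fun i _ => hb i)) (Real.exp_pos _).le
  have := sb.sum_le_tsum (Finset.range n) fun i _ => hb i
  linarith

end Pool.Agent.Lib.MP_e13bdd_an.FM
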