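import Pool.Agent.Lib.MP_e13bdd_an.FM.Chain

/-! The recursion for the moments. -/

namespace Pool.Agent.Lib.MP_e13bdd_an.FM

lemma MomB_add (n : ℕ) (v w : ℕ → ℂ) : vec n (fun j => v j + w j) = vec n v + vec n w := by
  have hl : ∀ (m : ℕ) (v w : ℕ → ℂ), lev m (fun j => v j + w j) = lev m v + lev m w := by
    intro m v w
    refine ext_nu fun k j => ?_
    rw [nu_add, nu_lev, nu_lev, nu_lev]
    split_ifs <;> simp
  induction n generalizing v w with
  | zero => exact hl 0 v w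
  | succ n ih =>
    have e : Pr n (fun j => v j + w j) = fun i => Pr n v i + Pr n w i := by
      funext i
      simp only [Pr, mul_add, Finset.sum_add_distrib]
    simp only [vec]
    rw [e, ih, hl]
    abel

lemma MomB_fin (n : ℕ) (s : Finset ℕ) (f : ℕ → ℕ → ℂ) :
    vec n (fun j => ∑ i ∈ s, f i j) = ∑ i ∈ s, vec n (f i) := by
  induction s using Finset.induction_on with
  | empty => simpa using vec_smul n 0 fun _ => 0
  | insert a s ha ih =>
    simp only [Finset.sum_insert ha]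
    rw [MomB_add, ih]

theorem vec_sum (n : ℕ) (v : ℕ → ℂ) :
    vec n v = ∑ i ∈ Finset.range (N n), v i • vec n (dl i) := by
  rw [vec_congr n v (fun j => ∑ i ∈ Finset.range (N n), v i * dl i j) fun j hj => ?_, MomB_fin]
  · exact Finset.sum_congr rfl fun i _ => vec_smul n (v i) (dl i)
  · simp [dl, hj]

theorem vec_pyth (n : ℕ) (v w : ℕ → ℂ) :
    ‖vec n v + lev (n + 1) w‖ ^ 2 = ‖vec n v‖ ^ 2 + ‖lev (n + 1) w‖ ^ 2 := by
  have h : inner ℂ (vec n v) (lev (n + 1) w) = 0 := by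
    rw [lp.inner_eq_tsum]
    refine (tsum_congr fun ⟨k, j⟩ => ?_).trans tsum_zero
    by_cases hk : k = n + 1
    · have h1 : vec n v (k, j) = 0 := by
        rw [← norm_eq_zero, norm_nu, chain_hi n v k j (Or.inl (by omega))]
        simp
      rw [h1, inner_zero_left]
    · rw [lev_apply, if_neg fun h => hk h.1, inner_zero_right]
  simp only [sq]
  exact norm_add_sq_eq_norm_sq_add_norm_sq_of_inner_eq_zero _ _ h

theorem vec_rpow (p : ℝ) (h0 : 0 < p) (h2 : p ≤ 2) (n j : ℕ) (hj : j < N (n + 1)) :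
    ‖vec (n + 1) (dl j)‖ ^ p ≤ ‖vec n (Pr n (dl j))‖ ^ p + wt (n + 1) j ^ p := by
  have e : ∀ x : ℝ, 0 ≤ x → x ^ p = (x ^ 2) ^ (p / 2) := fun x hx => by
    rw [← Real.rpow_natCast, ← Real.rpow_mul hx]
    congr 1
    push_cast
    ring
  rw [e _ (norm_nonneg _), e _ (norm_nonneg (vec n _)), e _ (wt_pos _ _).le]
  simp only [vec]
  rw [vec_pyth, norm_lev_dl _ _ hj]
  exact Real.rpow_add_le_add_rpow (by positivity) (by positivity) (by linarith) (by linarith)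

lemma MomB_c (n j i : ℕ) (hj : j < N (n + 1)) :
    ‖Pr n (dl j) i‖ = if i ≤ j then ‖g n (j - i)‖ else 0 := by
  split_ifs with h
  · rw [Proj_dl n j i h hj]
  · rw [norm_eq_zero]
    refine Finset.sum_eq_zero fun q _ => ?_
    rw [dl, if_neg (by omega), mul_zero]

lemma MomB_inj (n : ℕ) (s : Finset ℕ) (φ : ℕ → ℕ) (hφ : Set.InjOn φ s)
    (h : ∀ x ∈ s, φ x < 5 * N n) : ∑ x ∈ s, ‖g n (φ x)‖ ≤ n + 2 := by
  rw [← Finset.sum_image (f := fun q => ‖g n q‖) hφ]
  refine le_trans (Finset.sum_le_sum_of_subset_of_nonneg (fun q hq => ?_)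
    fun _ _ _ => norm_nonneg _) (g_low n)
  obtain ⟨x, hx, rfl⟩ := Finset.mem_image.1 hq
  exact Finset.mem_range.2 (h x hx)

lemma MomB_row (n j : ℕ) (hj : j < 5 * N n) :
    ∑ i ∈ Finset.range (N n), ‖Pr n (dl j) i‖ ≤ n + 2 := by
  have hb := N_big n
  rw [Finset.sum_congr rfl fun i _ => MomB_c n j i (by omega), ← Finset.sum_filter]
  refine MomB_inj n _ (fun i => j - i) (fun a ha b hb h => ?_) fun x _ => by omega
  have h1 := (Finset.mem_filter.1 (Finset.mem_coe.1 ha)).2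
  have h2 := (Finset.mem_filter.1 (Finset.mem_coe.1 hb)).2
  simp only at h
  omega

lemma MomB_col (n i : ℕ) : ∑ j ∈ Finset.range (5 * N n), ‖Pr n (dl j) i‖ ≤ n + 2 := by
  have hb := N_big n
  rw [Finset.sum_congr rfl fun j hj => MomB_c n j i (by have := Finset.mem_range.1 hj; omega),
    ← Finset.sum_filter]
  refine MomB_inj n _ (fun j => j - i) (fun a ha b hb h => ?_) fun x hx => ?_
  · have h1 := (Finset.mem_filter.1 (Finset.mem_coe.1 ha)).2
    have h2 := (Finset.mem_filter.1 (Finset.mem_coe.1 hb)).2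
    simp only at h
    omega
  · have := Finset.mem_range.1 (Finset.mem_filter.1 hx).1
    omega

lemma MomB_jensen (p : ℝ) (h1 : 1 ≤ p) (h2 : p ≤ 2) (s : Finset ℕ) (c y : ℕ → ℝ)
    (hc : ∀ i, 0 ≤ c i) (hy : ∀ i, 0 ≤ y i) (B : ℝ) (hB : 1 ≤ B) (h : ∑ i ∈ s, c i ≤ B) :
    (∑ i ∈ s, c i * y i) ^ p ≤ B * ∑ i ∈ s, c i * y i ^ p := by
  have hp : 0 < p := by linarith
  have a0 : 0 ≤ ∑ i ∈ s, c i := Finset.sum_nonneg fun i _ => hc i
  have b0 : 0 ≤ ∑ i ∈ s, c i * y i ^ p :=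
    Finset.sum_nonneg fun i _ => mul_nonneg (hc i) (Real.rpow_nonneg (hy i) _)
  have h3 := Real.rpow_le_rpow (Finset.sum_nonneg fun i _ => mul_nonneg (hc i) (hy i))
    (Real.inner_le_weight_mul_Lp_of_nonneg s h1 c y hc hy) hp.le
  rw [Real.mul_rpow (Real.rpow_nonneg a0 _) (Real.rpow_nonneg b0 _), ← Real.rpow_mul a0,
    ← Real.rpow_mul b0, inv_mul_cancel₀ hp.ne', Real.rpow_one,
    show (1 - p⁻¹) * p = p - 1 by field_simp] at h3
  refine h3.trans (mul_le_mul_of_nonneg_right ?_ b0)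
  calc (∑ i ∈ s, c i) ^ (p - 1) ≤ B ^ (p - 1) := Real.rpow_le_rpow a0 h (by linarith)
    _ ≤ B ^ (1 : ℝ) := Real.rpow_le_rpow_of_exponent_le hB (by linarith)
    _ = B := Real.rpow_one B

theorem young_low (p : ℝ) (h1 : 1 ≤ p) (h2 : p ≤ 2) (n : ℕ) :
    ∑ j ∈ Finset.range (5 * N n), ‖vec n (Pr n (dl j))‖ ^ p ≤ ((n : ℝ) + 2) ^ 2 * SS p n := by
  have hn : (0 : ℝ) ≤ n := Nat.cast_nonneg n
  have h3 : ∀ j ∈ Finset.range (5 * N n), ‖vec n (Pr n (dl j))‖ ^ p ≤
      ((n : ℝ) + 2) * ∑ i ∈ Finset.range (N n), ‖Pr n (dl j) i‖ * ‖vec n (dl i)‖ ^ p := by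
    intro j hj
    refine le_trans (Real.rpow_le_rpow (norm_nonneg _) ?_ (by linarith))
      (MomB_jensen p h1 h2 _ (fun i => ‖Pr n (dl j) i‖) (fun i => ‖vec n (dl i)‖)
        (fun _ => norm_nonneg _) (fun _ => norm_nonneg _) _ (by linarith)
        (MomB_row n j (Finset.mem_range.1 hj)))
    rw [vec_sum]
    exact (norm_sum_le _ _).trans (Finset.sum_le_sum fun i _ => (norm_smul _ _).le)
  refine (Finset.sum_le_sum h3).trans ?_
  rw [← Finset.mul_sum, Finset.sum_comm, sq, mul_assoc, SS]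
  refine mul_le_mul_of_nonneg_left ?_ (by linarith)
  rw [Finset.mul_sum]
  refine Finset.sum_le_sum fun i _ => ?_
  rw [← Finset.sum_mul]
  exact mul_le_mul_of_nonneg_right (MomB_col n i) (Real.rpow_nonneg (norm_nonneg _) _)

end Pool.Agent.Lib.MP_e13bdd_an.FM
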