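import Pool.Agent.Lib.MP_e13bdd_an.FM.MomA
import Pool.Agent.Lib.MP_e13bdd_an.FM.MomB
import Pool.Agent.Lib.MP_e13bdd_an.FM.Point

/-! Finite moments. -/

namespace Pool.Agent.Lib.MP_e13bdd_an.FM

open MeasureTheory Filter Topology

lemma momc_mod (f : ℕ → ℝ) (A r : ℕ) :
    ∑ j ∈ Finset.range (A * r), f (j % A) = r * ∑ i ∈ Finset.range A, f i := by
  induction r with
  | zero => simp
  | succ r ih =>
    have e : ∑ x ∈ Finset.range A, f ((A * r + x) % A) = ∑ i ∈ Finset.range A, f i :=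
      Finset.sum_congr rfl fun x hx => by
        rw [Nat.mul_add_mod, Nat.mod_eq_of_lt (Finset.mem_range.1 hx)]
    rw [Nat.mul_succ, Finset.sum_range_add, ih, e]
    push_cast
    ring

lemma momc_term (n j : ℕ) (h5 : 5 * N n ≤ j) (hj : j < N (n + 1)) :
    ‖vec n (Pr n (dl j))‖ ≤ ‖vec n (dl (j % N n))‖ := by
  by_cases h : j + N n < N (n + 1)
  · rw [vec_congr n _ (fun i => sa n (j / N n) * dl (j % N n) i)
      (fun i hi => Pr_good n j h5 h i hi), vec_smul, norm_smul, sa_norm, one_mul]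
  · have e : ∀ i, i < N n → Pr n (dl j) i = (0 : ℂ) * dl j i := fun i hi => by
      rw [zero_mul, Proj_dl n j i (by omega) hj]
      by_contra h0
      have := g_supp n _ h0
      omega
    rw [vec_congr n _ (fun i => (0 : ℂ) * dl j i) e, vec_smul, zero_smul, norm_zero]
    exact norm_nonneg _

lemma momc_SS (p : ℝ) (n : ℕ) : 0 ≤ SS p n :=
  Finset.sum_nonneg fun _ _ => Real.rpow_nonneg (norm_nonneg _) _

lemma momc_WW (p : ℝ) (n : ℕ) : 0 ≤ WW p n :=
  Finset.sum_nonneg fun j _ => Real.rpow_nonneg (wt_pos n j).le _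

theorem high_sum (p : ℝ) (h1 : 1 ≤ p) (n : ℕ) :
    ∑ j ∈ Finset.Ico (5 * N n) (N (n + 1)), ‖vec n (Pr n (dl j))‖ ^ p ≤ rr n * SS p n := by
  calc _ ≤ ∑ j ∈ Finset.Ico (5 * N n) (N (n + 1)), ‖vec n (dl (j % N n))‖ ^ p :=
        Finset.sum_le_sum fun j hj => Real.rpow_le_rpow (norm_nonneg _)
          (momc_term n j (Finset.mem_Ico.1 hj).1 (Finset.mem_Ico.1 hj).2) (by linarith)
    _ ≤ ∑ j ∈ Finset.range (N n * rr n), ‖vec n (dl (j % N n))‖ ^ p :=
        Finset.sum_le_sum_of_subset_of_nonneg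
          (fun j hj => by
            rw [← N_succ]
            exact Finset.mem_range.2 (Finset.mem_Ico.1 hj).2)
          fun j _ _ => Real.rpow_nonneg (norm_nonneg _) _
    _ = rr n * SS p n := momc_mod (fun i => ‖vec n (dl i)‖ ^ p) _ _

theorem SS_succ (p : ℝ) (h1 : 1 ≤ p) (h2 : p ≤ 2) (n : ℕ) :
    SS p (n + 1) ≤ (rr n + ((n : ℝ) + 2) ^ 2) * SS p n + WW p (n + 1) := by
  have hb := N_big n
  have h3 : SS p (n + 1) ≤
      ∑ j ∈ Finset.range (N (n + 1)), ‖vec n (Pr n (dl j))‖ ^ p + WW p (n + 1) := by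
    unfold SS WW
    rw [← Finset.sum_add_distrib]
    exact Finset.sum_le_sum fun j hj =>
      vec_rpow p (by linarith) h2 n j (Finset.mem_range.1 hj)
  rw [← Finset.sum_range_add_sum_Ico _ (show 5 * N n ≤ N (n + 1) by omega)] at h3
  have h4 := young_low p h1 h2 n
  have h5 := high_sum p h1 n
  rw [add_mul]
  linarith

theorem SS_bdd (p : ℝ) (h1 : 1 ≤ p) (h2 : p < 2) : ∃ C, ∀ n, SS p n / N n ≤ C := by
  refine seq_bdd (fun n => SS p n / N n) (fun n : ℕ => ((n : ℝ) + 2) ^ 2 / (rr n : ℝ))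
    (fun n => WW p (n + 1) / (N (n + 1) : ℝ))
    (fun n => div_nonneg (momc_SS p n) (Nat.cast_nonneg _)) (fun n => by positivity)
    (fun n => div_nonneg (momc_WW p _) (Nat.cast_nonneg _)) summable_rr (summable_WW p h1 h2)
    fun n => ?_
  have hN : (0 : ℝ) < N n := by exact_mod_cast lt_of_lt_of_le (by norm_num) (N_ge n)
  have hr : (0 : ℝ) < rr n := by exact_mod_cast lt_of_lt_of_le (by norm_num) (rr_ge n)
  have e : (N (n + 1) : ℝ) = N n * rr n := by exact_mod_cast N_succ n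
  have h := SS_succ p h1 h2.le n
  have e2 : (1 + ((n : ℝ) + 2) ^ 2 / (rr n : ℝ)) * (SS p n / N n) +
      WW p (n + 1) / (N (n + 1) : ℝ) =
      ((rr n + ((n : ℝ) + 2) ^ 2) * SS p n + WW p (n + 1)) / (N (n + 1) : ℝ) := by
    rw [e]
    field_simp
  rw [e2]
  exact div_le_div_of_nonneg_right h (Nat.cast_nonneg _)

theorem aemeasurable_F : AEMeasurable F PP := by
  refine aemeasurable_of_tendsto_metrizable_ae'
    (f := fun n z => vec n (pt n z)) (fun n => ?_) ?_
  · have h1 : Continuous (sg n) := continuous_finsetProd _ fun i _ =>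
      ((jj_locConst (i + 1)).comp fun j => sa i (j / N i)).continuous
    have h2 : Continuous fun z => vec n (dl (jj n z)) :=
      ((jj_locConst n).comp fun j => vec n (dl j)).continuous
    have e : (fun z => vec n (pt n z)) = fun z => sg n z • vec n (dl (jj n z)) :=
      funext fun z => vec_smul n (sg n z) (dl (jj n z))
    rw [e]
    exact (h1.smul h2).measurable.aemeasurable
  · filter_upwards [ae_gd] with z hz
    obtain ⟨K, hK⟩ := hz
    exact (F_spec z K hK).2.1

lemma momc_meas (p : ℝ) : AEStronglyMeasurable (fun z => ‖F z‖ ^ p) PP :=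
  (aemeasurable_F.norm.pow_const p).aestronglyMeasurable

lemma momc_int (q : ℝ) (h1 : 1 ≤ q) (h2 : q < 2) : Integrable (fun z => ‖F z‖ ^ q) PP := by
  obtain ⟨C, hC⟩ := SS_bdd q h1 h2
  refine (lintegral_ofReal_ne_top_iff_integrable (momc_meas q)
    (Eventually.of_forall fun z => Real.rpow_nonneg (norm_nonneg _) _)).1 ?_
  have h3 : ∀ᵐ z ∂PP, ENNReal.ofReal (‖F z‖ ^ q) =
      liminf (fun n => ENNReal.ofReal (‖vec n (dl (jj n z))‖ ^ q)) atTop := by
    filter_upwards [ae_gd] with z hz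
    obtain ⟨K, hK⟩ := hz
    have h4 := ((F_spec z K hK).2.1.norm).rpow_const (p := q) (Or.inr (by linarith))
    simp only [norm_vec_pt] at h4
    exact (ENNReal.tendsto_ofReal h4).liminf_eq.symm
  rw [lintegral_congr_ae h3]
  refine ne_top_of_le_ne_top (ENNReal.ofReal_ne_top (r := C)) ?_
  refine (lintegral_liminf_le' fun n => ?_).trans ?_
  · exact ((jj_locConst n).comp
      fun j => ENNReal.ofReal (‖vec n (dl j)‖ ^ q)).continuous.measurable.aemeasurable
  · refine liminf_le_of_frequently_le' (Frequently.of_forall fun n => ?_)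
    rw [lint_jj n (fun j => ‖vec n (dl j)‖ ^ q) fun j => Real.rpow_nonneg (norm_nonneg _) _]
    exact ENNReal.ofReal_le_ofReal (hC n)

theorem moment_F (p : ℝ) (h0 : 0 < p) (h2 : p < 2) : Integrable (fun z => ‖F z‖ ^ p) PP := by
  have h := momc_int (max p 1) (le_max_right _ _) (max_lt h2 (by norm_num))
  refine ((integrable_const (1 : ℝ)).add h).mono' (momc_meas p)
    (Eventually.of_forall fun z => ?_)
  have hz := norm_nonneg (F z)
  rw [Real.norm_of_nonneg (Real.rpow_nonneg hz _), Pi.add_apply]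
  have h3 := Real.rpow_nonneg hz (max p 1)
  rcases le_total ‖F z‖ 1 with h4 | h4
  · have := Real.rpow_le_one hz h4 h0.le
    linarith
  · have := Real.rpow_le_rpow_of_exponent_le h4 (le_max_left p 1)
    linarith

end Pool.Agent.Lib.MP_e13bdd_an.FM
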