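import Pool.Agent.Lib.MP_e13bdd_an.FM.Defs

/-! Heights. -/

namespace Pool.Agent.Lib.MP_e13bdd_an.FM

theorem N_succ (k : ℕ) : N (k + 1) = N k * rr k := by
  unfold N rr ex
  rw [show (4 : ℕ) = 2 ^ 2 from rfl, ← pow_mul, ← pow_add]
  congr 1
  simp only [hx]
  ring

theorem hx_ge (k : ℕ) : 5 + 5 * k ≤ hx k := by
  induction k with
  | zero => simp [hx]
  | succ k ih => simp only [hx]; omega

theorem ex_le (k : ℕ) : ex k ≤ ex (k + 1) := by
  unfold ex
  simp only [hx]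
  omega

theorem N_ge (k : ℕ) : 512 ≤ N k := by
  have := hx_ge k
  unfold N ex
  calc 512 = 2 ^ 9 := by norm_num
    _ ≤ 2 ^ (2 * hx k) := Nat.pow_le_pow_right (by norm_num) (by omega)

theorem rr_ge (k : ℕ) : 1024 ≤ rr k := by
  unfold rr
  calc 1024 = 4 ^ 5 := by norm_num
    _ ≤ 4 ^ (k + 5) := Nat.pow_le_pow_right (by norm_num) (by omega)

theorem N_big (k : ℕ) : 8 * N k ≤ N (k + 1) := by
  have h := rr_ge k
  rw [N_succ, mul_comm]
  exact Nat.mul_le_mul_left _ (by omega)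

theorem N_dvd (k : ℕ) : N k ∣ N (k + 1) := ⟨rr k, N_succ k⟩

theorem hm_succ (k : ℕ) : hm (k + 1) = hm k + (k + 7) := by
  unfold hm
  simp only [hx]
  omega

theorem hm_small (k : ℕ) : hm (k + 2) + (k + 2) + 1 ≤ N k := by
  have h : ∀ e : ℕ, 5 ≤ e → e + 13 ≤ 2 ^ e := by
    intro e he
    induction e, he using Nat.le_induction with
    | base => norm_num
    | succ n hn ih => rw [pow_succ]; omega
  have h1 := hx_ge k
  have h2 := h (2 * hx k) (by omega)
  unfold N ex hm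
  simp only [hx]
  omega

theorem M_succ (k : ℕ) : M (k + 1) = M k * 2 ^ (k + 7) := by
  unfold M
  rw [hm_succ, pow_add]

theorem M_one (k : ℕ) : 1 ≤ M k := one_le_pow₀ (by norm_num)

theorem M_pos (k : ℕ) : 0 < M k := lt_of_lt_of_le one_pos (M_one k)

theorem rr_le_M (k : ℕ) : (rr k : ℝ) ≤ M (k + 1) := by
  have h1 := hx_ge (k + 1)
  unfold rr M hm
  push_cast
  rw [show (4 : ℝ) = 2 ^ 2 by norm_num, ← pow_mul]
  exact pow_le_pow_right₀ (by norm_num) (by omega)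

theorem wt_ge (k j : ℕ) : (1 / 2 : ℝ) ^ k ≤ wt k j := le_max_left _ _

theorem wt_pos (k j : ℕ) : 0 < wt k j := lt_of_lt_of_le (by positivity) (wt_ge k j)

theorem wt_ne (k j : ℕ) : (wt k j : ℂ) ≠ 0 := by exact_mod_cast (wt_pos k j).ne'

theorem sa_sign (k b : ℕ) : sa k b = 1 ∨ sa k b = -1 := rp_sign _ _ _

theorem sa_norm (k b : ℕ) : ‖sa k b‖ = 1 := by
  rcases sa_sign k b with h | h <;> simp [h]

theorem sa_sq (k b : ℕ) : sa k b * sa k b = 1 := by
  rcases sa_sign k b with h | h <;> simp [h]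

theorem sg_succ (m : ℕ) (z : ℤ_[2]) : sg (m + 1) z = sg m z * sa m (jj (m + 1) z / N m) :=
  Finset.prod_range_succ _ _

theorem sg_sign (m : ℕ) (z : ℤ_[2]) : sg m z = 1 ∨ sg m z = -1 := by
  induction m with
  | zero => left; simp [sg]
  | succ m ih =>
    rw [sg_succ]
    rcases ih with h | h <;> rcases sa_sign m (jj (m + 1) z / N m) with h' | h' <;> simp [h, h']

theorem sg_norm (m : ℕ) (z : ℤ_[2]) : ‖sg m z‖ = 1 := by
  rcases sg_sign m z with h | h <;> simp [h]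

theorem g_cases (k p : ℕ) (h : g k p ≠ 0) : p = N k ∨ (3 * N k ≤ p ∧ p < 4 * N k) ∨
    (5 * N k ≤ p ∧ p + 2 * N k ≤ N (k + 1) ∧ N k ∣ p) := by
  unfold g at h
  split_ifs at h with h1 h2 h3
  · exact Or.inl h1
  · exact Or.inr (Or.inl h2)
  · exact Or.inr (Or.inr h3)
  · exact absurd rfl h

theorem g_supp (k p : ℕ) (h : g k p ≠ 0) : N k ≤ p ∧ p + 2 * N k ≤ N (k + 1) := by
  have hb := N_big k
  rcases g_cases k p h with h1 | h1 | h1 <;> omega

end Pool.Agent.Lib.MP_e13bdd_an.FM
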