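import Pool.Agent.Lib.MP_e13bdd_an.FM.Split

/-! The space and the operator. -/

namespace Pool.Agent.Lib.MP_e13bdd_an.FM

theorem nu_add (x y : Am) (k j : ℕ) : nu (x + y) k j = nu x k j + nu y k j := by
  unfold nu; simp [add_div]

theorem nu_smul (c : ℂ) (x : Am) (k j : ℕ) : nu (c • x) k j = c * nu x k j := by
  unfold nu; simp [mul_div_assoc]

theorem nu_zero (k j : ℕ) : nu 0 k j = 0 := by
  unfold nu; simp

theorem continuous_nu (k j : ℕ) : Continuous fun x : Am => nu x k j := by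
  unfold nu
  exact ((lp.evalCLM ℂ (fun _ : ℕ × ℕ => ℂ) 2 (k, j)).continuous).div_const _

theorem norm_nu (x : Am) (k j : ℕ) : ‖x (k, j)‖ = wt k j * ‖nu x k j‖ := by
  unfold nu
  rw [norm_div, Complex.norm_real, Real.norm_of_nonneg (wt_pos k j).le]
  have := (wt_pos k j).ne'
  field_simp

theorem ext_nu {x y : Am} (h : ∀ k j, nu x k j = nu y k j) : x = y := by
  apply lp.ext
  funext i
  exact (div_left_inj' (wt_ne i.1 i.2)).1 (h i.1 i.2)

theorem exists_Hs : ∃ S : Submodule ℂ Am, IsClosed (S : Set Am) ∧ ∀ x, x ∈ S ↔ Comp x := by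
  let S : Submodule ℂ Am :=
    { carrier := {x | Comp x}
      add_mem' := by
        intro x y hx hy
        refine ⟨fun k j hj => ?_, fun k i hi => ?_⟩
        · rw [nu_add, hx.1 k j hj, hy.1 k j hj, add_zero]
        · rw [nu_add, hx.2 k i hi, hy.2 k i hi]
          unfold Pr
          rw [← Finset.sum_add_distrib]
          refine Finset.sum_congr rfl fun p _ => ?_
          rw [nu_add, mul_add]
      zero_mem' := by
        refine ⟨fun k j _ => nu_zero k j, fun k i _ => ?_⟩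
        unfold Pr
        simp [nu_zero]
      smul_mem' := by
        intro c x hx
        refine ⟨fun k j hj => ?_, fun k i hi => ?_⟩
        · rw [nu_smul, hx.1 k j hj, mul_zero]
        · rw [nu_smul, hx.2 k i hi]
          unfold Pr
          rw [Finset.mul_sum]
          refine Finset.sum_congr rfl fun p _ => ?_
          rw [nu_smul]
          ring }
  refine ⟨S, ?_, fun x => Iff.rfl⟩
  have h : (S : Set Am) = (⋂ k, ⋂ j, ⋂ _ : N k ≤ j, {x : Am | nu x k j = 0}) ∩
      ⋂ k, ⋂ i, ⋂ _ : i < N k, {x : Am | nu x k i = Pr k (nu x (k + 1)) i} := by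
    ext x
    simp only [Set.mem_inter_iff, Set.mem_iInter, Set.mem_ofPred_eq]
    exact Iff.rfl
  rw [h]
  refine IsClosed.inter ?_ ?_
  · exact isClosed_iInter fun k => isClosed_iInter fun j => isClosed_iInter fun _ =>
      isClosed_eq (continuous_nu k j) continuous_const
  · refine isClosed_iInter fun k => isClosed_iInter fun i => isClosed_iInter fun _ =>
      isClosed_eq (continuous_nu k i) ?_
    unfold Pr
    exact continuous_finsetSum _ fun p _ => continuous_const.mul (continuous_nu _ _)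

theorem bound_of (x : Am) (y : ℕ × ℕ → ℂ) (φ : ℕ → ℕ)
    (h0 : ∀ k, ‖y (k, 0)‖ ≤ 2 * ‖x (k + 1, φ k)‖) (h1 : ∀ k j, ‖y (k, j + 1)‖ ≤ 2 * ‖x (k, j)‖) :
    ∃ z : Am, (∀ i, z i = y i) ∧ ‖z‖ ≤ 3 * ‖x‖ := by
  classical
  have key : ∀ s : Finset (ℕ × ℕ),
      ∑ i ∈ s, ‖y i‖ ^ (2 : ENNReal).toReal ≤ (3 * ‖x‖) ^ (2 : ENNReal).toReal := by
    intro s
    have e2 : (2 : ENNReal).toReal = ((2 : ℕ) : ℝ) := by norm_num
    simp only [e2, Real.rpow_natCast]
    rw [← Finset.sum_filter_add_sum_filter_not s (fun i => i.2 = 0)]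
    have a0 : ∑ i ∈ s.filter (fun i => i.2 = 0), ‖y i‖ ^ 2 ≤ 4 * ‖x‖ ^ 2 := by
      have b := FS.Oper_inj x (s.filter (fun i => i.2 = 0)) (fun i => (i.1 + 1, φ i.1)) (by
        rintro ⟨k, j⟩ hi ⟨k', j'⟩ hi' he
        have hj : j = 0 := (Finset.mem_filter.1 (Finset.mem_coe.1 hi)).2
        have hj' : j' = 0 := (Finset.mem_filter.1 (Finset.mem_coe.1 hi')).2
        have hk : k + 1 = k' + 1 := (Prod.mk.inj he).1
        exact Prod.ext (by omega) (hj.trans hj'.symm))
      refine le_trans ?_ (mul_le_mul_of_nonneg_left b (by norm_num : (0 : ℝ) ≤ 4))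
      rw [Finset.mul_sum]
      refine Finset.sum_le_sum ?_
      rintro ⟨k, j⟩ hi
      have hj : j = 0 := (Finset.mem_filter.1 hi).2
      subst hj
      have c := pow_le_pow_left₀ (norm_nonneg _) (h0 k) 2
      calc ‖y (k, 0)‖ ^ 2 ≤ (2 * ‖x (k + 1, φ k)‖) ^ 2 := c
        _ = 4 * ‖x (k + 1, φ k)‖ ^ 2 := by ring
    have a1 : ∑ i ∈ s.filter (fun i => ¬ i.2 = 0), ‖y i‖ ^ 2 ≤ 4 * ‖x‖ ^ 2 := by
      have b := FS.Oper_inj x (s.filter (fun i => ¬ i.2 = 0)) (fun i => (i.1, i.2 - 1)) (by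
        rintro ⟨k, j⟩ hi ⟨k', j'⟩ hi' he
        have hj : ¬ j = 0 := (Finset.mem_filter.1 (Finset.mem_coe.1 hi)).2
        have hj' : ¬ j' = 0 := (Finset.mem_filter.1 (Finset.mem_coe.1 hi')).2
        have hk : k = k' := (Prod.mk.inj he).1
        have hl : j - 1 = j' - 1 := (Prod.mk.inj he).2
        exact Prod.ext hk (by show j = j'; omega))
      refine le_trans ?_ (mul_le_mul_of_nonneg_left b (by norm_num : (0 : ℝ) ≤ 4))
      rw [Finset.mul_sum]
      refine Finset.sum_le_sum ?_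
      rintro ⟨k, j⟩ hi
      have hj : ¬ j = 0 := (Finset.mem_filter.1 hi).2
      obtain ⟨j, rfl⟩ := Nat.exists_eq_succ_of_ne_zero hj
      have c := pow_le_pow_left₀ (norm_nonneg _) (h1 k j) 2
      calc ‖y (k, j + 1)‖ ^ 2 ≤ (2 * ‖x (k, j)‖) ^ 2 := c
        _ = 4 * ‖x (k, j)‖ ^ 2 := by ring
    nlinarith [sq_nonneg ‖x‖]
  refine ⟨⟨y, memℓp_gen' key⟩, fun _ => rfl, ?_⟩
  exact lp.norm_le_of_forall_sum_le (p := 2) (by norm_num) (by positivity) key

lemma Oper_zero (x : Am) (k : ℕ) (B : ℝ) (hB : ∀ j, j < N (k + 1) → ‖x (k + 1, j)‖ ≤ B) :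
    ‖(wt k 0 : ℂ) * sh x k 0‖ ≤ 2 * B := by
  have hB0 : 0 ≤ B := (norm_nonneg _).trans (hB 0 (by have := N_ge (k + 1); omega))
  have term : ∀ p ∈ Finset.range (N (k + 1)),
      ‖g k p * nu x (k + 1) (p - 1)‖ ≤ ‖g k p‖ / wt (k + 1) (p - 1) * B := by
    intro p hp
    have e := norm_nu x (k + 1) (p - 1)
    have f := hB (p - 1) (by have := Finset.mem_range.1 hp; omega)
    have hw := wt_pos (k + 1) (p - 1)
    rw [norm_mul, div_mul_eq_mul_div, mul_div_assoc]
    refine mul_le_mul_of_nonneg_left ?_ (norm_nonneg _)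
    rw [le_div_iff₀ hw, mul_comm, ← e]
    exact f
  have hsum : ‖sh x k 0‖ ≤ (k + 2) * B := by
    unfold sh
    rw [if_pos (by have := N_ge k; omega), if_pos rfl]
    refine (norm_sum_le _ _).trans ((Finset.sum_le_sum term).trans ?_)
    rw [← Finset.sum_mul]
    exact mul_le_mul_of_nonneg_right (g_wsum k) hB0
  have hk : (1 / 2 : ℝ) ^ k * (k + 2) ≤ 2 := by
    have h1 : ∀ n : ℕ, n + 2 ≤ 2 * 2 ^ n := fun n => by
      have := Nat.lt_pow_self (n := n) (a := 2) (by norm_num)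
      omega
    have h2 : (k : ℝ) + 2 ≤ 2 * 2 ^ k := by exact_mod_cast h1 k
    rw [one_div, inv_pow, inv_mul_le_iff₀ (by positivity)]
    linarith
  rw [norm_mul, Complex.norm_real, Real.norm_of_nonneg (wt_pos k 0).le, wt_zero]
  calc (1 / 2 : ℝ) ^ k * ‖sh x k 0‖ ≤ (1 / 2 : ℝ) ^ k * ((k + 2) * B) :=
        mul_le_mul_of_nonneg_left hsum (by positivity)
    _ = (1 / 2 : ℝ) ^ k * (k + 2) * B := by ring
    _ ≤ 2 * B := mul_le_mul_of_nonneg_right hk hB0

lemma Oper_ex (x : Am) : ∃ z : Am, (∀ k j, nu z k j = sh x k j) ∧ ‖z‖ ≤ 3 * ‖x‖ := by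
  have hφ : ∀ k, ∃ j0, ∀ j, j < N (k + 1) → ‖x (k + 1, j)‖ ≤ ‖x (k + 1, j0)‖ := by
    intro k
    obtain ⟨j0, -, h⟩ := Finset.exists_max_image (Finset.range (N (k + 1)))
      (fun j => ‖x (k + 1, j)‖) ⟨0, Finset.mem_range.2 (by have := N_ge (k + 1); omega)⟩
    exact ⟨j0, fun j hj => h j (Finset.mem_range.2 hj)⟩
  choose φ hφ using hφ
  obtain ⟨z, hz, hn⟩ := bound_of x (fun i => (wt i.1 i.2 : ℂ) * sh x i.1 i.2) φ
    (fun k => Oper_zero x k _ (hφ k)) (by
      intro k j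
      show ‖(wt k (j + 1) : ℂ) * sh x k (j + 1)‖ ≤ _
      unfold sh
      split_ifs with h1 h2
      · exact h2.elim
      · rw [norm_mul, Complex.norm_real, Real.norm_of_nonneg (wt_pos k _).le, norm_nu,
          Nat.add_sub_cancel, ← mul_assoc]
        exact mul_le_mul_of_nonneg_right (wt_succ k j) (norm_nonneg _)
      · rw [mul_zero, norm_zero]; positivity)
  refine ⟨z, fun k j => ?_, hn⟩
  unfold nu
  rw [hz]
  exact mul_div_cancel_left₀ _ (wt_ne k j)

lemma Oper_add (x y : Am) (k j : ℕ) : sh (x + y) k j = sh x k j + sh y k j := by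
  unfold sh
  split_ifs
  · rw [← Finset.sum_add_distrib]
    exact Finset.sum_congr rfl fun p _ => by rw [nu_add, mul_add]
  · exact nu_add x y k _
  · simp

lemma Oper_smul (c : ℂ) (x : Am) (k j : ℕ) : sh (c • x) k j = c * sh x k j := by
  unfold sh
  split_ifs
  · rw [Finset.mul_sum]
    exact Finset.sum_congr rfl fun p _ => by rw [nu_smul]; ring
  · exact nu_smul c x k _
  · simp

theorem exists_T : ∃ T : Am →L[ℂ] Am, ∀ x k j, nu (T x) k j = sh x k j := by
  choose z hz hn using Oper_ex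
  let T0 : Am →ₗ[ℂ] Am :=
    { toFun := z
      map_add' := fun x y => ext_nu fun k j => by rw [nu_add, hz, hz, hz, Oper_add]
      map_smul' := fun c x => ext_nu fun k j => by
        rw [RingHom.id_apply, nu_smul, hz, hz, Oper_smul] }
  exact ⟨T0.mkContinuous 3 hn, fun x k j => hz x k j⟩

theorem comp_sh {x y : Am} (hx : Comp x) (h : ∀ k j, nu y k j = sh x k j) : Comp y := by
  refine ⟨fun k j hj => ?_, fun k i hi => ?_⟩
  · rw [h, sh, if_neg (by omega)]
  · have key : Pr k (nu y (k + 1)) i =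
        ∑ p ∈ Finset.range (N (k + 1)), g k p * nu x (k + 1) (i + p - 1) := by
      unfold Pr
      refine Finset.sum_congr rfl fun p _ => ?_
      by_cases hg : g k p = 0
      · rw [hg, zero_mul, zero_mul]
      · have h1 := g_supp k p hg
        have h2 := N_ge k
        rw [h, sh, if_pos (by omega), if_neg (by omega)]
    rw [key, h, sh, if_pos hi]
    by_cases h0 : i = 0
    · subst h0
      rw [if_pos rfl]
      refine Finset.sum_congr rfl fun p _ => ?_
      rw [zero_add]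
    · rw [if_neg h0, hx.2 k (i - 1) (by omega)]
      unfold Pr
      refine Finset.sum_congr rfl fun p _ => ?_
      rw [show i - 1 + p = i + p - 1 by omega]

end Pool.Agent.Lib.MP_e13bdd_an.FM
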