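import Pool.Agent.Lib.MP_e13bdd_an.FM.Wt

/-! The projections between levels. -/

namespace Pool.Agent.Lib.MP_e13bdd_an.FM

theorem Pr_congr (k : ℕ) (v w : ℕ → ℂ) (h : ∀ j, N k ≤ j → j < N (k + 1) → v j = w j) (i : ℕ)
    (hi : i < N k) : Pr k v i = Pr k w i := by
  unfold Pr
  refine Finset.sum_congr rfl fun p _ => ?_
  by_cases hp : g k p = 0
  · rw [hp, zero_mul, zero_mul]
  · have := g_supp k p hp
    rw [h (i + p) (by omega) (by omega)]

theorem Pr_smul (k : ℕ) (c : ℂ) (v : ℕ → ℂ) (i : ℕ) :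
    Pr k (fun j => c * v j) i = c * Pr k v i := by
  unfold Pr
  rw [Finset.mul_sum]
  exact Finset.sum_congr rfl fun p _ => by ring

lemma Proj_dl (k j i : ℕ) (hij : i ≤ j) (hj : j < N (k + 1)) : Pr k (dl j) i = g k (j - i) := by
  unfold Pr
  rw [Finset.sum_eq_single (j - i)]
  · have : i + (j - i) = j := by omega
    simp [dl, this]
  · intro p _ hp
    have : i + p ≠ j := by omega
    simp [dl, this]
  · intro hp
    exact absurd (Finset.mem_range.2 (by omega)) hp

theorem Pr_good (k j : ℕ) (h5 : 5 * N k ≤ j) (h : j + N k < N (k + 1)) (i : ℕ) (hi : i < N k) :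
    Pr k (dl j) i = sa k (j / N k) * dl (j % N k) i := by
  rw [Proj_dl k j i (by omega) (by omega)]
  have hdv : N k ∣ j - i ↔ i = j % N k := by
    rw [← Nat.modEq_iff_dvd' (by omega : i ≤ j)]
    unfold Nat.ModEq
    rw [Nat.mod_eq_of_lt hi]
  unfold g dl
  rw [if_neg (by omega), if_neg (by omega)]
  by_cases hij : i = j % N k
  · obtain ⟨r, hr⟩ := N_dvd k
    obtain ⟨c, hc⟩ := hdv.2 hij
    have h0 : 0 < N k := by omega
    have h1 : 4 < c := by
      refine Nat.lt_of_mul_lt_mul_left (a := N k) ?_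
      omega
    have h2 : c + 1 < r := by
      refine Nat.lt_of_mul_lt_mul_left (a := N k) ?_
      rw [Nat.mul_add]
      omega
    have h3 : N k * 5 ≤ N k * c := Nat.mul_le_mul_left _ h1
    have h4 : N k * (c + 2) ≤ N k * r := Nat.mul_le_mul_left _ h2
    rw [Nat.mul_add] at h4
    have e1 : (j - i) / N k = c := by rw [hc, Nat.mul_div_cancel_left _ h0]
    have e2 : j / N k = c := by
      rw [show j = i + N k * c by omega, Nat.add_mul_div_left _ _ h0, Nat.div_eq_of_lt hi,
        Nat.zero_add]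
    rw [if_pos hij, if_pos ⟨by omega, by omega, ⟨c, hc⟩⟩, mul_one, e1, e2]
  · rw [if_neg hij, if_neg, mul_zero]
    exact fun h6 => hij (hdv.1 h6.2.2)

theorem Pr_pat (k i : ℕ) (hi : i < N k) : Pr k (dl (4 * N k - 1)) i = pat k i := by
  have := N_big k
  rw [Proj_dl k _ i (by omega) (by omega)]
  unfold g
  rw [if_neg (by omega), if_pos (by omega)]
  congr 1
  omega

theorem Pr_up (k : ℕ) (v : ℕ → ℂ) (i : ℕ) (hi : i < N k) : Pr k (up k v) i = v i := by
  have := N_big k
  unfold Pr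
  rw [Finset.sum_eq_single (N k)]
  · unfold g up
    rw [if_pos rfl, if_pos (by omega), one_mul, Nat.add_sub_cancel]
  · intro p _ hp
    by_cases h3 : 3 * N k ≤ p
    · unfold up
      rw [if_neg (by omega), mul_zero]
    · unfold g
      rw [if_neg hp, if_neg (by omega), if_neg (by omega), zero_mul]
  · intro hp
    exact absurd (Finset.mem_range.2 (by omega)) hp

theorem continuous_Pr (k : ℕ) : Continuous (Pr k) := by
  refine continuous_pi fun i => ?_
  unfold Pr
  exact continuous_finsetSum _ fun p _ => continuous_const.mul (continuous_apply (i + p))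

theorem pat_sum (k : ℕ) : ∑ q ∈ Finset.range (N k), ‖pat k q‖ ≤ k + 1 := by
  by_cases h : ∑ q ∈ Finset.range (N k), ‖lift (lv k) (qq (ix k)) (k - lv k) q‖ ≤ k + 1
  · refine le_trans (le_of_eq (Finset.sum_congr rfl fun q _ => ?_)) h
    unfold pat
    rw [if_pos h]
  · refine le_trans (le_of_eq (Finset.sum_eq_zero fun q _ => ?_)) (by positivity)
    unfold pat
    rw [if_neg h, norm_zero]

lemma Proj_up (m : ℕ) (v : ℕ → ℂ) :
    ∑ j ∈ Finset.range (N (m + 1)), ‖up m v j‖ = ∑ i ∈ Finset.range (N m), ‖v i‖ := by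
  have hb := N_big m
  have h1 : ∑ j ∈ Finset.range (N (m + 1)), ‖up m v j‖
      = ∑ j ∈ Finset.Ico (N m) (2 * N m), ‖up m v j‖ := by
    symm
    refine Finset.sum_subset ?_ ?_
    · intro j hj
      rw [Finset.mem_Ico] at hj
      exact Finset.mem_range.2 (by omega)
    · intro j _ hj
      rw [Finset.mem_Ico] at hj
      simp [up, hj]
  rw [h1, Finset.sum_Ico_eq_sum_range, show 2 * N m - N m = N m by omega]
  refine Finset.sum_congr rfl fun i hi => ?_
  have hi' := Finset.mem_range.1 hi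
  unfold up
  rw [if_pos ⟨by omega, by omega⟩, Nat.add_sub_cancel_left]

lemma Proj_lift (l : ℕ) (u : ℕ → ℂ) (m : ℕ) :
    ∑ q ∈ Finset.range (N (l + m)), ‖lift l u m q‖ = ∑ i ∈ Finset.range (N l), ‖u i‖ := by
  induction m with
  | zero => rfl
  | succ m ih => exact (Proj_up (l + m) (lift l u m)).trans ih

theorem pat_often (l n : ℕ) : ∃ k, l ≤ k ∧ ∀ i, i < N k → pat k i = lift l (qq n) (k - l) i := by
  obtain ⟨B, hB⟩ := exists_nat_ge (∑ i ∈ Finset.range (N l), ‖qq n i‖)
  have hl : l ≤ Nat.pair (Nat.pair l n) B :=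
    (Nat.left_le_pair l n).trans (Nat.left_le_pair _ _)
  have hr : B ≤ Nat.pair (Nat.pair l n) B := Nat.right_le_pair _ _
  refine ⟨Nat.pair (Nat.pair l n) B, hl, fun i _ => ?_⟩
  have e1 : lv (Nat.pair (Nat.pair l n) B) = l := by simp [lv, Nat.unpair_pair]
  have e2 : ix (Nat.pair (Nat.pair l n) B) = n := by simp [ix, Nat.unpair_pair]
  unfold pat
  rw [e1, e2, if_pos]
  have h2 := Proj_lift l (qq n) (Nat.pair (Nat.pair l n) B - l)
  rw [Nat.add_sub_cancel' hl] at h2
  have h3 : (B : ℝ) ≤ (Nat.pair (Nat.pair l n) B : ℕ) := by exact_mod_cast hr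
  linarith

end Pool.Agent.Lib.MP_e13bdd_an.FM
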