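import Pool.Agent.Lib.MP_e13bdd_an.FS.Freq

/-! Rudin-Shapiro signs and flat polynomials. -/

namespace Pool.Agent.Lib.MP_e13bdd_an.FM

/-- coefficients of the two Rudin-Shapiro polynomials of order n -/
noncomputable def rp : ℕ → Bool → ℕ → ℂ
  | 0, _, _ => 1
  | n + 1, s, b =>
    if b < 2 ^ n then rp n false b else (if s then -1 else 1) * rp n true (b - 2 ^ n)

theorem rp_sign (n : ℕ) (s : Bool) (b : ℕ) : rp n s b = 1 ∨ rp n s b = -1 := by
  induction n generalizing s b with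
  | zero => exact Or.inl rfl
  | succ n ih =>
    rw [rp]
    split_ifs
    · exact ih _ _
    · rcases ih true (b - 2 ^ n) with e | e <;> simp [e]
    · rcases ih true (b - 2 ^ n) with e | e <;> simp [e]

lemma RS_split (n : ℕ) (s : Bool) (z : ℂ) :
    ∑ b ∈ Finset.range (2 ^ (n + 1)), rp (n + 1) s b * z ^ b =
      ∑ b ∈ Finset.range (2 ^ n), rp n false b * z ^ b +
        (if s then -1 else 1) * (z ^ 2 ^ n * ∑ b ∈ Finset.range (2 ^ n), rp n true b * z ^ b) := by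
  rw [pow_succ, mul_two, Finset.sum_range_add, Finset.mul_sum, Finset.mul_sum]
  congr 1
  · exact Finset.sum_congr rfl fun b hb => by rw [rp, if_pos (Finset.mem_range.1 hb)]
  · refine Finset.sum_congr rfl fun b _ => ?_
    rw [rp, if_neg (by omega), Nat.add_sub_cancel_left, pow_add]
    ring

theorem rp_flat (n : ℕ) (z : ℂ) (hz : ‖z‖ = 1) :
    ‖∑ b ∈ Finset.range (2 ^ n), rp n false b * z ^ b‖ ^ 2 +
      ‖∑ b ∈ Finset.range (2 ^ n), rp n true b * z ^ b‖ ^ 2 = 2 * 2 ^ n := by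
  induction n with
  | zero => simp [rp]; norm_num
  | succ n ih =>
    rw [RS_split, RS_split]
    simp only [Bool.false_eq_true, if_false, if_true, one_mul, neg_one_mul, ← sub_eq_add_neg]
    rw [parallelogram_law_with_norm ℝ, norm_mul, norm_pow, hz, one_pow, one_mul, ih]
    ring

lemma RS_norm (n : ℕ) (s : Bool) (b : ℕ) : ‖rp n s b‖ = 1 := by
  rcases rp_sign n s b with e | e <;> simp [e]

lemma RS_sphere (h : ℕ) (hh : 2 ≤ h) (w : ℂ) (hw : ‖w‖ = 1) :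
    ‖∑ b ∈ Finset.Icc 5 (4 ^ h - 2), rp (2 * h) false b * w ^ b‖ ≤ 2 * 2 ^ h + 6 := by
  have h16 : 4 ^ 2 ≤ 4 ^ h := Nat.pow_le_pow_right (by norm_num) hh
  have e4 : 2 ^ (2 * h) = 4 ^ h := by rw [pow_mul]; norm_num
  have h1 : ‖∑ b ∈ Finset.range (4 ^ h), rp (2 * h) false b * w ^ b‖ ≤ 2 * 2 ^ h := by
    have k := rp_flat (2 * h) w hw
    rw [e4] at k
    refine abs_le_of_sq_le_sq' ?_ (by positivity) |>.2
    have k2 : ((2 : ℝ) ^ h) ^ 2 = 2 ^ (2 * h) := by rw [← pow_mul, mul_comm]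
    have k3 : (0 : ℝ) ≤ 2 ^ (2 * h) := by positivity
    rw [mul_pow, k2]
    nlinarith [sq_nonneg ‖∑ b ∈ Finset.range (4 ^ h), rp (2 * h) true b * w ^ b‖]
  have sub : Finset.Icc 5 (4 ^ h - 2) ⊆ Finset.range (4 ^ h) := fun b hb => by
    rw [Finset.mem_Icc] at hb
    rw [Finset.mem_range]
    omega
  have h2 : ‖∑ b ∈ Finset.range (4 ^ h) \ Finset.Icc 5 (4 ^ h - 2),
      rp (2 * h) false b * w ^ b‖ ≤ 6 := by
    refine (norm_sum_le _ _).trans ?_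
    simp only [norm_mul, norm_pow, hw, RS_norm, one_pow, Finset.sum_const, nsmul_eq_mul, mul_one]
    rw [Finset.card_sdiff_of_subset sub, Finset.card_range, Nat.card_Icc]
    have : 4 ^ h - (4 ^ h - 2 + 1 - 5) = 6 := by omega
    rw [this]
    norm_num
  rw [eq_sub_of_add_eq' (Finset.sum_sdiff (f := fun b => rp (2 * h) false b * w ^ b) sub)]
  exact (norm_sub_le _ _).trans (add_le_add h1 h2)

lemma RS_max {f : ℂ → ℂ} (hf : Differentiable ℂ f) {C : ℝ} (h : ∀ w, ‖w‖ = 1 → ‖f w‖ ≤ C) {w : ℂ}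
    (hw : ‖w‖ ≤ 1) : ‖f w‖ ≤ C :=
  Complex.norm_le_of_forall_mem_frontier_norm_le (U := Metric.ball 0 1) Metric.isBounded_ball
    hf.diffContOnCl (fun z hz => h z (by
      rwa [frontier_ball _ one_ne_zero, mem_sphere_zero_iff_norm] at hz))
    (by rwa [closure_ball _ one_ne_zero, mem_closedBall_zero_iff])

theorem rs_fwd (h : ℕ) (hh : 2 ≤ h) (w : ℂ) (hw : ‖w‖ ≤ 1) :
    ‖∑ b ∈ Finset.Icc 5 (4 ^ h - 2), rp (2 * h) false b * w ^ (b - 1)‖ ≤ 2 * 2 ^ h + 6 := by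
  refine RS_max (f := fun w => ∑ b ∈ Finset.Icc 5 (4 ^ h - 2), rp (2 * h) false b * w ^ (b - 1))
    (by fun_prop) (fun z hz => ?_) hw
  have e : z * ∑ b ∈ Finset.Icc 5 (4 ^ h - 2), rp (2 * h) false b * z ^ (b - 1) =
      ∑ b ∈ Finset.Icc 5 (4 ^ h - 2), rp (2 * h) false b * z ^ b := by
    rw [Finset.mul_sum]
    refine Finset.sum_congr rfl fun b hb => ?_
    rw [Finset.mem_Icc] at hb
    obtain ⟨c, rfl⟩ : ∃ c, b = c + 1 := ⟨b - 1, by omega⟩
    rw [Nat.add_sub_cancel, pow_succ]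
    ring
  have k := RS_sphere h hh z hz
  rwa [← e, norm_mul, hz, one_mul] at k

theorem rs_bwd (h : ℕ) (hh : 2 ≤ h) (w : ℂ) (hw : ‖w‖ ≤ 1) :
    ‖∑ b ∈ Finset.Icc 5 (4 ^ h - 2), rp (2 * h) false b * w ^ (4 ^ h - 1 - b)‖ ≤
      2 * 2 ^ h + 6 := by
  refine RS_max
    (f := fun w => ∑ b ∈ Finset.Icc 5 (4 ^ h - 2), rp (2 * h) false b * w ^ (4 ^ h - 1 - b))
    (by fun_prop) (fun z hz => ?_) hw
  have z0 : z ≠ 0 := fun e => by simp [e] at hz
  have e : ∑ b ∈ Finset.Icc 5 (4 ^ h - 2), rp (2 * h) false b * z ^ (4 ^ h - 1 - b) =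
      z ^ (4 ^ h - 1) * ∑ b ∈ Finset.Icc 5 (4 ^ h - 2), rp (2 * h) false b * z⁻¹ ^ b := by
    rw [Finset.mul_sum]
    refine Finset.sum_congr rfl fun b hb => ?_
    rw [Finset.mem_Icc] at hb
    rw [pow_sub₀ z z0 (by omega), inv_pow]
    ring
  have k := RS_sphere h hh z⁻¹ (by rw [norm_inv, hz, inv_one])
  rwa [e, norm_mul, norm_pow, hz, one_pow, one_mul]

end Pool.Agent.Lib.MP_e13bdd_an.FM
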