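import Pool.Agent.Lib.MP_e13bdd_an.FS.Freq

/-! An integrable equivariant map from the odometer vanishes when there is no eigenvalue. -/

namespace Pool.Agent.Lib.MP_e13bdd_an.FM

open MeasureTheory Filter Topology

theorem pow_two_eig {E : Type*} [NormedAddCommGroup E] [NormedSpace ℂ E] (T : E →L[ℂ] E)
    (hno : ∀ (c : ℂ) (x : E), T x = c • x → x = 0) (n : ℕ) (c : ℂ) (x : E)
    (h : (T ^ (2 ^ n)) x = c • x) : x = 0 := by
  induction n generalizing c x with
  | zero => exact hno c x (by simpa using h)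
  | succ n ih =>
    obtain ⟨d, hd⟩ := IsAlgClosed.exists_pow_nat_eq c (n := 2) (by norm_num)
    have h1 : (T ^ (2 ^ n)) ((T ^ (2 ^ n)) x) = c • x := by
      rw [← h, pow_succ 2 n, pow_mul, pow_two]
      rfl
    have h2 : (T ^ (2 ^ n)) x + d • x = 0 := by
      refine ih d _ ?_
      rw [map_add, h1, map_smul, smul_add, smul_smul, ← hd, pow_two, add_comm]
    refine ih (-d) x ?_
    rw [neg_smul]
    exact eq_neg_of_add_eq_zero_left h2

lemma skewA_dist {n : ℕ} {y z : ℤ_[2]} (h : pk n y = pk n z) : ‖y - z‖ ≤ (1 / 2 : ℝ) ^ n := by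
  have h1 : y - z ∈ RingHom.ker (PadicInt.toZModPow (p := 2) n) := by
    rw [RingHom.mem_ker, map_sub, sub_eq_zero]
    exact h
  rw [PadicInt.ker_toZModPow, ← PadicInt.norm_le_pow_iff_mem_span_pow] at h1
  refine h1.trans (le_of_eq ?_)
  rw [zpow_neg, zpow_natCast, one_div, inv_pow]
  norm_num

lemma skewA_inter {s : Set ℤ_[2]} (hs : IsClosed s) : ⋂ n, pk n ⁻¹' (pk n '' s) = s := by
  refine Set.Subset.antisymm (fun z hz => ?_) fun z hz => Set.mem_iInter.2 fun n => ⟨z, hz, rfl⟩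
  rw [← hs.closure_eq, Metric.mem_closure_iff]
  intro ε hε
  obtain ⟨n, hn⟩ := exists_pow_lt_of_lt_one hε (show (1 / 2 : ℝ) < 1 by norm_num)
  obtain ⟨y, hy, h⟩ := Set.mem_iInter.1 hz n
  refine ⟨y, hy, ?_⟩
  rw [dist_comm, dist_eq_norm]
  exact (skewA_dist h).trans_lt hn

theorem cyl_zero {E : Type*} [NormedAddCommGroup E] [NormedSpace ℂ E] [CompleteSpace E]
    (G : ℤ_[2] → E) (hG : Integrable G PP)
    (h : ∀ (n : ℕ) (a : ZMod (2 ^ n)), ∫ z in pk n ⁻¹' {a}, G z ∂PP = 0) : ∀ᵐ z ∂PP, G z = 0 := by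
  classical
  have h1 : ∀ (n : ℕ) (t : Set (ZMod (2 ^ n))), ∫ z in pk n ⁻¹' t, G z ∂PP = 0 := by
    intro n t
    have e : pk n ⁻¹' t = ⋃ a ∈ Finset.univ.filter (fun a => a ∈ t), pk n ⁻¹' {a} := by
      ext z
      simp
    rw [e, integral_biUnion_finset _ (fun a _ => measurableSet_fiber n {a})
      (fun a _ b _ hab => Set.disjoint_left.2 fun z h1 h2 => hab ((Eq.symm h1).trans h2))
      (fun a _ => hG.integrableOn)]
    exact Finset.sum_eq_zero fun a _ => h n a
  refine ae_eq_zero_of_forall_setIntegral_isClosed_eq_zero hG fun s hs => ?_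
  have h2 : Antitone fun n => pk n ⁻¹' (pk n '' s) := by
    refine antitone_nat_of_succ_le fun n z hz => ?_
    obtain ⟨y, hy, e⟩ := hz
    exact ⟨y, hy, by rw [← red_pk n y, ← red_pk n z, e]⟩
  have h3 := tendsto_setIntegral_of_antitone (μ := PP) (f := G)
    (fun n => measurableSet_fiber n (pk n '' s)) h2 ⟨0, hG.integrableOn⟩
  rw [skewA_inter hs] at h3
  simp only [h1] at h3
  exact (tendsto_const_nhds_iff.1 h3).symm

theorem equi_zero {E : Type*} [NormedAddCommGroup E] [NormedSpace ℂ E] [CompleteSpace E]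
    (T : E →L[ℂ] E) (hno : ∀ (c : ℂ) (x : E), T x = c • x → x = 0)
    (G : ℤ_[2] → E) (hG : Integrable G PP) (h : ∀ᵐ z ∂PP, T (G z) = G (1 + z)) :
    ∀ᵐ z ∂PP, G z = 0 := by
  refine cyl_zero G hG fun n a => ?_
  have h1 : ∀ b : ZMod (2 ^ n), T (∫ z in pk n ⁻¹' {b}, G z ∂PP) =
      ∫ z in pk n ⁻¹' {b + 1}, G z ∂PP := by
    intro b
    rw [← T.integral_comp_comm hG.integrableOn,
      setIntegral_congr_ae (measurableSet_fiber n {b}) (h.mono fun z hz _ => hz),
      ← integral_indicator (measurableSet_fiber n {b}),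
      ← integral_indicator (measurableSet_fiber n {b + 1}),
      ← integral_add_left_eq_self ((pk n ⁻¹' {b + 1}).indicator G) 1]
    refine integral_congr_ae (Eventually.of_forall fun z => ?_)
    have e : (1 + z) ∈ pk n ⁻¹' {b + 1} ↔ z ∈ pk n ⁻¹' {b} := by
      simp only [Set.mem_preimage, Set.mem_singleton_iff, map_add, map_one]
      rw [add_comm b, add_right_inj]
    by_cases hz : z ∈ pk n ⁻¹' {b}
    · simp only [Set.indicator_of_mem hz, Set.indicator_of_mem (e.2 hz)]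
    · simp only [Set.indicator_of_notMem hz, Set.indicator_of_notMem (mt e.1 hz)]
  have h2 : ∀ m : ℕ, (T ^ m) (∫ z in pk n ⁻¹' {a}, G z ∂PP) =
      ∫ z in pk n ⁻¹' {a + m}, G z ∂PP := by
    intro m
    induction m with
    | zero => simp
    | succ m ih =>
      rw [pow_succ', Nat.cast_succ, ← add_assoc, ← h1, ← ih]
      rfl
  refine pow_two_eig T hno n 1 _ ?_
  rw [h2, ZMod.natCast_self, add_zero, one_smul]

end Pool.Agent.Lib.MP_e13bdd_an.FM
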