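import Pool.Agent.Lib.MP_e13bdd_an.FM.Proj

/-! Sums against the stacking coefficients. -/

namespace Pool.Agent.Lib.MP_e13bdd_an.FM

theorem g_split {β : Type*} [AddCommMonoid β] (k : ℕ) (Φ : ℂ → ℕ → β) (h0 : ∀ p, Φ 0 p = 0) :
    ∑ p ∈ Finset.range (N (k + 1)), Φ (g k p) p =
      Φ 1 (N k) + ∑ q ∈ Finset.range (N k), Φ (pat k q) (4 * N k - 1 - q) +
        ∑ b ∈ Finset.Icc 5 (rr k - 2), Φ (sa k b) (b * N k) := by
  have hb := N_big k
  have hN := N_ge k
  have hr := rr_ge k
  have hs := N_succ k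
  have key : ∀ p, Φ (g k p) p = (if p = N k then Φ 1 p else 0) +
      (if 3 * N k ≤ p ∧ p < 4 * N k then Φ (pat k (4 * N k - 1 - p)) p else 0) +
      (if 5 * N k ≤ p ∧ p + 2 * N k ≤ N (k + 1) ∧ N k ∣ p then Φ (sa k (p / N k)) p else 0) := by
    intro p
    unfold g
    by_cases h1 : p = N k
    · rw [if_pos h1, if_pos h1, if_neg (by omega), if_neg (fun h => by omega), add_zero, add_zero]
    · rw [if_neg h1, if_neg h1, zero_add]
      by_cases h2 : 3 * N k ≤ p ∧ p < 4 * N k
      · rw [if_pos h2, if_pos h2, if_neg (fun h => by omega), add_zero]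
      · rw [if_neg h2, if_neg h2, zero_add]
        split_ifs with h3
        · rfl
        · exact h0 p
  rw [Finset.sum_congr rfl fun p _ => key p, Finset.sum_add_distrib, Finset.sum_add_distrib,
    Finset.sum_ite_eq', if_pos (Finset.mem_range.2 (by omega)), ← Finset.sum_filter,
    ← Finset.sum_filter]
  refine congrArg₂ (· + ·) (congrArg _ ?_) ?_
  · refine Finset.sum_nbij' (fun p => 4 * N k - 1 - p) (fun q => 4 * N k - 1 - q) ?_ ?_ ?_ ?_ ?_
    · intro p hp
      simp only [Finset.mem_filter, Finset.mem_range] at hp ⊢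
      omega
    · intro q hq
      simp only [Finset.mem_filter, Finset.mem_range] at hq ⊢
      omega
    · intro p hp
      simp only [Finset.mem_filter, Finset.mem_range] at hp ⊢
      omega
    · intro q hq
      simp only [Finset.mem_range] at hq ⊢
      omega
    · intro p hp
      simp only [Finset.mem_filter, Finset.mem_range] at hp
      rw [show 4 * N k - 1 - (4 * N k - 1 - p) = p by omega]
  · symm
    refine Finset.sum_nbij' (fun b => b * N k) (fun p => p / N k) ?_ ?_ ?_ ?_ ?_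
    · intro b hb'
      simp only [Finset.mem_filter, Finset.mem_range, Finset.mem_Icc] at hb' ⊢
      have h1 : 5 * N k ≤ b * N k := Nat.mul_le_mul_right _ hb'.1
      have h2 : (b + 2) * N k ≤ rr k * N k := Nat.mul_le_mul_right _ (by omega)
      rw [add_mul, mul_comm (rr k), ← hs] at h2
      exact ⟨by omega, h1, h2, Dvd.intro_left b rfl⟩
    · intro p hp
      simp only [Finset.mem_filter, Finset.mem_range, Finset.mem_Icc] at hp ⊢
      obtain ⟨-, h1, h2, b, rfl⟩ := hp
      rw [Nat.mul_div_cancel_left _ (by omega)]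
      rw [mul_comm 5] at h1
      rw [hs, mul_comm 2, ← mul_add] at h2
      have h3 := Nat.le_of_mul_le_mul_left h1 (by omega)
      have h4 := Nat.le_of_mul_le_mul_left h2 (by omega)
      omega
    · intro b _
      exact Nat.mul_div_cancel _ (by omega)
    · intro p hp
      simp only [Finset.mem_filter] at hp
      exact Nat.div_mul_cancel hp.2.2.2
    · intro b _
      rw [Nat.mul_div_cancel _ (by omega)]

theorem g_wsum (k : ℕ) :
    ∑ p ∈ Finset.range (N (k + 1)), ‖g k p‖ / wt (k + 1) (p - 1) ≤ k + 2 := by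
  have hN := N_ge k
  have hr := rr_ge k
  have hM := M_pos (k + 1)
  rw [g_split k (fun c p => ‖c‖ / wt (k + 1) (p - 1)) (fun p => by simp)]
  have h1 : ∑ q ∈ Finset.range (N k), ‖pat k q‖ / wt (k + 1) (4 * N k - 1 - q - 1) ≤ k + 1 := by
    refine le_trans (Finset.sum_le_sum fun q hq => ?_) (pat_sum k)
    have hq' := Finset.mem_range.1 hq
    exact div_le_self (norm_nonneg _) (wt_med k _ (by omega) (by omega))
  have h2 : ∑ b ∈ Finset.Icc 5 (rr k - 2), ‖sa k b‖ / wt (k + 1) (b * N k - 1) =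
      ((rr k - 6 : ℕ) : ℝ) * (1 / M (k + 1)) := by
    rw [Finset.sum_congr rfl (g := fun _ => 1 / M (k + 1)) fun b hb => ?_, Finset.sum_const,
      Nat.card_Icc, nsmul_eq_mul, show rr k - 2 + 1 - 5 = rr k - 6 by omega]
    rw [sa_norm, wt_heavy _ _ (dd_mult k _ (Nat.mul_le_mul_right _ (Finset.mem_Icc.1 hb).1)
      (Dvd.intro_left b rfl))]
  have h3 : ((rr k - 6 : ℕ) : ℝ) + 1 ≤ M (k + 1) := by
    refine le_trans ?_ (rr_le_M k)
    exact_mod_cast (by omega : rr k - 6 + 1 ≤ rr k)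
  have h4 : (((rr k - 6 : ℕ) : ℝ) + 1) * (1 / M (k + 1)) ≤ 1 := by
    rw [mul_one_div]
    exact (div_le_one hM).2 h3
  rw [h2, norm_one, wt_heavy _ _ (dd_first k)]
  linarith

theorem g_low (k : ℕ) : ∑ p ∈ Finset.range (5 * N k), ‖g k p‖ ≤ k + 2 := by
  have hb := N_big k
  have hN := N_ge k
  have h0 : ∑ p ∈ Finset.range (5 * N k), ‖g k p‖ =
      ∑ p ∈ Finset.range (N (k + 1)), (if p < 5 * N k then ‖g k p‖ else 0) := by
    rw [← Finset.sum_filter]
    refine Finset.sum_congr ?_ fun _ _ => rfl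
    ext p
    simp only [Finset.mem_filter, Finset.mem_range]
    omega
  rw [h0, g_split k (fun c p => if p < 5 * N k then ‖c‖ else 0) (fun p => by simp)]
  have h1 : ∑ q ∈ Finset.range (N k), (if 4 * N k - 1 - q < 5 * N k then ‖pat k q‖ else 0) ≤
      k + 1 := by
    refine le_trans (le_of_eq (Finset.sum_congr rfl fun q _ => ?_)) (pat_sum k)
    rw [if_pos (by omega)]
  have h2 : ∑ b ∈ Finset.Icc 5 (rr k - 2), (if b * N k < 5 * N k then ‖sa k b‖ else 0) = 0 :=
    Finset.sum_eq_zero fun b hb' =>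
      if_neg (not_lt.2 (Nat.mul_le_mul_right _ (Finset.mem_Icc.1 hb').1))
  rw [h2, if_pos (by omega), norm_one]
  linarith

lemma Split_iter {n : ℕ} {w : ℕ → ℂ} {c : ℂ} (h : ∀ j, j + 1 < n → w j = c * w (j + 1)) :
    ∀ d j, j + d < n → w j = c ^ d * w (j + d) := by
  intro d
  induction d with
  | zero => intro j _; simp
  | succ d ih =>
    intro j hj
    rw [ih j (by omega), h (j + d) (by omega), pow_succ, mul_assoc, add_assoc]

lemma Split_main (k : ℕ) (w : ℕ → ℂ) (i : ℕ) (hi : i < N k) (B : ℝ) (hB : 0 ≤ B)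
    (h1 : ∀ j, N k - 1 ≤ j → j < N (k + 1) → ‖w j‖ ≤ B)
    (h2 : ‖∑ b ∈ Finset.Icc 5 (rr k - 2), sa k b * w (i + b * N k)‖ ≤ (2 * 2 ^ (k + 5) + 6) * B) :
    ‖Pr k w i‖ ≤ 2 ^ (k + 7) * B := by
  have hb := N_big k
  have e := g_split k (fun a p => a * w (i + p)) (fun p => zero_mul _)
  have a1 : ‖1 * w (i + N k)‖ ≤ B := by
    rw [one_mul]
    exact h1 _ (by omega) (by omega)
  have a2 : ‖∑ q ∈ Finset.range (N k), pat k q * w (i + (4 * N k - 1 - q))‖ ≤ (k + 1) * B := by
    refine (norm_sum_le _ _).trans (le_trans ?_ (mul_le_mul_of_nonneg_right (pat_sum k) hB))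
    rw [Finset.sum_mul]
    refine Finset.sum_le_sum fun q hq => ?_
    have := Finset.mem_range.1 hq
    rw [norm_mul]
    exact mul_le_mul_of_nonneg_left (h1 _ (by omega) (by omega)) (norm_nonneg _)
  have a3 : (k : ℝ) + 1 ≤ 2 ^ k := by exact_mod_cast Nat.lt_two_pow_self
  have a4 : (1 : ℝ) + (k + 1) + (2 * 2 ^ (k + 5) + 6) ≤ 2 ^ (k + 7) := by
    have : (0 : ℝ) ≤ k := Nat.cast_nonneg k
    rw [pow_add, pow_add]
    linarith
  unfold Pr
  rw [e]
  refine (norm_add₃_le.trans (add_le_add (add_le_add a1 a2) h2)).trans ?_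
  have := mul_le_mul_of_nonneg_right a4 hB
  linarith

theorem Pr_eig (k : ℕ) (w : ℕ → ℂ) (c : ℂ) (h : ∀ j, j + 1 < N (k + 1) → w j = c * w (j + 1))
    (i : ℕ) (hi : i < N k) :
    ‖Pr k w i‖ ≤ 2 ^ (k + 7) * max ‖w (N k - 1)‖ ‖w (N (k + 1) - 1)‖ := by
  have hb := N_big k
  have hr := rr_ge k
  have hs := N_succ k
  have it := Split_iter h
  have lt : ∀ b, b + 1 ≤ rr k → i + b * N k < N (k + 1) := fun b hb' => by
    have := Nat.mul_le_mul_right (N k) hb'
    rw [hs, mul_comm (N k)]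
    rw [add_mul] at this
    omega
  have hpos : (0 : ℝ) ≤ 2 * 2 ^ (k + 5) + 6 := by positivity
  rcases le_total ‖c‖ 1 with hc | hc
  · have h1 : ∀ j, j < N (k + 1) → ‖w j‖ ≤ max ‖w (N k - 1)‖ ‖w (N (k + 1) - 1)‖ := by
      intro j hj
      refine le_trans ?_ (le_max_right _ _)
      rw [it (N (k + 1) - 1 - j) j (by omega), norm_mul, norm_pow,
        show j + (N (k + 1) - 1 - j) = N (k + 1) - 1 by omega]
      exact mul_le_of_le_one_left (norm_nonneg _) (pow_le_one₀ (norm_nonneg _) hc)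
    refine Split_main k w i hi _ (le_max_of_le_left (norm_nonneg _)) (fun j _ => h1 j) ?_
    have e : ∑ b ∈ Finset.Icc 5 (rr k - 2), sa k b * w (i + b * N k) =
        (∑ b ∈ Finset.Icc 5 (rr k - 2), sa k b * (c ^ N k) ^ (rr k - 1 - b)) *
          w (i + (rr k - 1) * N k) := by
      rw [Finset.sum_mul]
      refine Finset.sum_congr rfl fun b hb' => ?_
      have hb2 := Finset.mem_Icc.1 hb'
      have e1 : i + b * N k + N k * (rr k - 1 - b) = i + (rr k - 1) * N k := by
        rw [add_assoc, mul_comm (N k), ← add_mul]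
        congr 2
        omega
      rw [it (N k * (rr k - 1 - b)) (i + b * N k) (by rw [e1]; exact lt _ (by omega)), e1,
        pow_mul, mul_assoc]
    rw [e, norm_mul]
    exact mul_le_mul (rs_bwd (k + 5) (by omega) (c ^ N k)
      (by rw [norm_pow]; exact pow_le_one₀ (norm_nonneg _) hc)) (h1 _ (lt _ (by omega)))
      (norm_nonneg _) hpos
  · have hc0 : c ≠ 0 := by
      rintro rfl
      norm_num at hc
    have h1 : ∀ j, N k - 1 ≤ j → j < N (k + 1) →
        ‖w j‖ ≤ max ‖w (N k - 1)‖ ‖w (N (k + 1) - 1)‖ := by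
      intro j hj0 hj
      refine le_trans ?_ (le_max_left _ _)
      rw [it (j - (N k - 1)) (N k - 1) (by omega), norm_mul, norm_pow,
        show N k - 1 + (j - (N k - 1)) = j by omega]
      exact le_mul_of_one_le_left (norm_nonneg _) (one_le_pow₀ hc)
    refine Split_main k w i hi _ (le_max_of_le_left (norm_nonneg _)) h1 ?_
    have e : ∑ b ∈ Finset.Icc 5 (rr k - 2), sa k b * w (i + b * N k) =
        (∑ b ∈ Finset.Icc 5 (rr k - 2), sa k b * (c⁻¹ ^ N k) ^ (b - 1)) * w (i + N k) := by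
      rw [Finset.sum_mul]
      refine Finset.sum_congr rfl fun b hb' => ?_
      have hb2 := Finset.mem_Icc.1 hb'
      have e1 : i + N k + N k * (b - 1) = i + b * N k := by
        obtain ⟨b, rfl⟩ : ∃ b', b = b' + 1 := ⟨b - 1, by omega⟩
        rw [Nat.add_sub_cancel]
        ring
      rw [it (N k * (b - 1)) (i + N k) (by rw [e1]; exact lt _ (by omega)), e1, ← pow_mul,
        mul_assoc, ← mul_assoc (c⁻¹ ^ _), ← mul_pow, inv_mul_cancel₀ hc0, one_pow, one_mul]
    rw [e, norm_mul]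
    exact mul_le_mul (rs_fwd (k + 5) (by omega) (c⁻¹ ^ N k)
      (by
        rw [norm_pow, norm_inv]
        exact pow_le_one₀ (by positivity) (inv_le_one_of_one_le₀ hc)))
      (h1 _ (by omega) (by omega)) (norm_nonneg _) hpos

end Pool.Agent.Lib.MP_e13bdd_an.FM
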