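import Pool.Agent.Lib.MP_e13bdd_an.FM.Num

/-! Weights. -/

namespace Pool.Agent.Lib.MP_e13bdd_an.FM

lemma WtLast (n c : ℕ) (hn : 0 < n) : ((c + 1) * n - 1) % n = n - 1 := by
  have h : (c + 1) * n - 1 = (n - 1) + c * n := by
    rw [add_mul, one_mul]
    omega
  rw [h, Nat.add_mul_mod_self_right]
  exact Nat.mod_eq_of_lt (by omega)

lemma WtLight (a d m : ℕ) (h : a + m ≤ d) : (2 : ℝ) ^ a * (1 / 2) ^ d ≤ (1 / 2) ^ m := by
  have h1 : (1 / 2 : ℝ) ^ d ≤ (1 / 2) ^ (a + m) :=
    pow_le_pow_of_le_one (by norm_num) (by norm_num) h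
  have h2 : (2 : ℝ) ^ a * (1 / 2) ^ (a + m) = (1 / 2) ^ m := by
    rw [pow_add, ← mul_assoc, ← mul_pow]
    norm_num
  rw [← h2]
  exact mul_le_mul_of_nonneg_left h1 (by positivity)

lemma WtSmall (k : ℕ) : hm (k + 1) + (k + 1) + 1 ≤ N k := by
  have h1 := hm_small k
  have h2 := hm_succ (k + 1)
  rw [show k + 1 + 1 = k + 2 from rfl] at h2
  omega

lemma WtUnit (k : ℕ) : M k * (1 / 2) ^ hm k = 1 := by
  unfold M
  rw [← mul_pow]
  norm_num

lemma WtStep (k j : ℕ) : dd k j ≤ dd k (j + 1) + 1 := by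
  cases k with
  | zero => simp [dd]
  | succ k =>
    have hn := N_ge k
    have hs := WtSmall k
    have hlt : j % N k < N k := Nat.mod_lt _ (by omega)
    have hc : (j + 1) % N k = 0 ∨ (j + 1) % N k = j % N k + 1 := by
      rw [Nat.add_mod, Nat.mod_eq_of_lt (show 1 < N k by omega)]
      by_cases h : j % N k + 1 = N k
      · left
        rw [h, Nat.mod_self]
      · right
        exact Nat.mod_eq_of_lt (by omega)
    have h2 : j + 1 = 2 * N k → (j + 1) % N k = 0 := fun h => by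
      rw [h, Nat.mul_mod_left]
    have h4 : j + 1 = 4 * N k → (j + 1) % N k = 0 := fun h => by
      rw [h, Nat.mul_mod_left]
    have h3 : j + 1 = 3 * N k → j % N k = N k - 1 := fun h => by
      have := WtLast (N k) 2 (by omega)
      rwa [show (2 + 1) * N k - 1 = j by omega] at this
    simp only [dd]
    generalize (j + 1) % N k = b at *
    generalize j % N k = a at *
    split_ifs <;> omega

lemma WtMult (k c : ℕ) (hc : c = 0 ∨ c = 2 ∨ 4 ≤ c) : dd (k + 1) ((c + 1) * N k - 1) = 0 := by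
  have hn := N_ge k
  have h := WtLast (N k) c (by omega)
  have h5 : 4 ≤ c → 5 * N k ≤ (c + 1) * N k := fun h => Nat.mul_le_mul_right _ (by omega)
  have h0 : c = 0 → (c + 1) * N k = N k := fun h => by rw [h]; ring
  have h2 : c = 2 → (c + 1) * N k = 3 * N k := fun h => by rw [h]
  simp only [dd]
  rw [h]
  generalize (c + 1) * N k = b at *
  split_ifs <;> omega

theorem wt_succ (k j : ℕ) : wt k (j + 1) ≤ 2 * wt k j := by
  have h0 := wt_pos k j
  refine max_le (by linarith [wt_ge k j]) ?_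
  have h1 : (1 / 2 : ℝ) ^ (dd k (j + 1) + 1) ≤ (1 / 2) ^ dd k j :=
    pow_le_pow_of_le_one (by norm_num) (by norm_num) (WtStep k j)
  have h2 : M k * (1 / 2) ^ dd k j ≤ wt k j := le_max_right _ _
  have h3 := mul_le_mul_of_nonneg_left h1 (M_pos k).le
  rw [pow_succ (1 / 2 : ℝ)] at h3
  linarith

theorem wt_heavy (k j : ℕ) (h : dd k j = 0) : wt k j = M k := by
  unfold wt
  rw [h, pow_zero, mul_one]
  exact max_eq_right ((pow_le_one₀ (by norm_num) (by norm_num)).trans (M_one k))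

theorem dd_first (k : ℕ) : dd (k + 1) (N k - 1) = 0 := by
  have := WtMult k 0 (by omega)
  rwa [zero_add, one_mul] at this

theorem dd_mult (k p : ℕ) (h5 : 5 * N k ≤ p) (hd : N k ∣ p) : dd (k + 1) (p - 1) = 0 := by
  have hn := N_ge k
  obtain ⟨b, rfl⟩ := hd
  have hb : 5 ≤ b := by
    rw [mul_comm (N k) b] at h5
    exact Nat.le_of_mul_le_mul_right h5 (by omega)
  have := WtMult k (b - 1) (by omega)
  rwa [show b - 1 + 1 = b by omega, mul_comm] at this

theorem dd_top (k : ℕ) : dd (k + 1) (N (k + 1) - 1) = 0 := by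
  have := N_big k
  exact dd_mult k _ (by omega) (N_dvd k)

theorem wt_med (k p : ℕ) (h3 : 3 * N k ≤ p) (h4 : p < 4 * N k) : 1 ≤ wt (k + 1) (p - 1) := by
  have hn := N_ge k
  by_cases h : p = 3 * N k
  · have := WtMult k 2 (by omega)
    rw [show (2 + 1) * N k = p by omega] at this
    rw [wt_heavy _ _ this]
    exact M_one _
  · have hd : dd (k + 1) (p - 1) = hm (k + 1) := by
      simp only [dd]
      rw [if_neg (by omega), if_pos (by omega)]
    unfold wt
    rw [hd, WtUnit]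
    exact le_max_right _ _

theorem wt_zero (k : ℕ) : wt k 0 = (1 / 2) ^ k := by
  have hd : hm k + k ≤ dd k 0 := by
    cases k with
    | zero =>
      have := N_ge 0
      simp only [dd, hm, hx]
      omega
    | succ k =>
      have hn := N_ge k
      have hs := WtSmall k
      simp only [dd]
      rw [if_neg (by omega), if_neg (by omega), Nat.zero_mod]
      omega
  unfold wt M
  exact max_eq_left (WtLight _ _ _ hd)

theorem wt_light1 (k j : ℕ) (h : (N k ≤ j ∧ j < 2 * N k) ∨ j + 1 = 4 * N k) :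
    wt (k + 1) j = (1 / 2) ^ (k + 1) := by
  have hd : dd (k + 1) j = N k := by
    simp only [dd]
    rw [if_pos h]
  have hs := WtSmall k
  unfold wt M
  rw [hd]
  exact max_eq_left (WtLight _ _ _ (by omega))

theorem wt_light2 (k j : ℕ) (h5 : 5 * N (k + 1) ≤ j) (h : j % N (k + 1) + N k < N (k + 1)) :
    wt (k + 2) j = (1 / 2) ^ (k + 2) := by
  have hd : N k ≤ dd (k + 1 + 1) j := by
    simp only [dd]
    rw [if_neg (by omega), if_neg (by omega)]
    omega
  have hs := hm_small k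
  rw [show k + 1 + 1 = k + 2 from rfl] at hd
  unfold wt M
  exact max_eq_left (WtLight _ _ _ (by omega))

theorem wt_upper (k j : ℕ) : wt (k + 1) j ≤ (1 / 2) ^ (k + 1) ∨
    (3 * N k ≤ j ∧ j < 4 * N k ∧ wt (k + 1) j ≤ 1) ∨
      wt (k + 1) j ≤ M (k + 1) * (1 / 2) ^ (N k - 1 - j % N k) := by
  by_cases h1 : (N k ≤ j ∧ j < 2 * N k) ∨ j + 1 = 4 * N k
  · exact Or.inl (wt_light1 k j h1).le
  by_cases h2 : 3 * N k ≤ j ∧ j < 4 * N k
  · have hd : dd (k + 1) j = hm (k + 1) := by
      simp only [dd]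
      rw [if_neg h1, if_pos h2]
    refine Or.inr (Or.inl ⟨h2.1, h2.2, ?_⟩)
    unfold wt
    rw [hd, WtUnit]
    exact max_le (pow_le_one₀ (by norm_num) (by norm_num)) le_rfl
  · have hd : dd (k + 1) j = N k - 1 - j % N k := by
      simp only [dd]
      rw [if_neg h1, if_neg h2]
    unfold wt
    rw [hd]
    rcases le_total (M (k + 1) * (1 / 2) ^ (N k - 1 - j % N k)) ((1 / 2 : ℝ) ^ (k + 1)) with h | h
    · exact Or.inl (max_le le_rfl h)
    · exact Or.inr (Or.inr (max_le h le_rfl))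

end Pool.Agent.Lib.MP_e13bdd_an.FM
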